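import Pool.Agent.H200Z.Stm

set_option autoImplicit false

/-!
Project H200Z: calculus of definable predicates for a system `DS`.
-/

namespace Pool.Agent.Q222.HZ

open Pool.Agent.H200Z Q200.CircData

variable {D : (n : ℕ) → Set (Fin n → ℤ) → Prop} {γ δ : Type}

/-- definable predicates on tuples with any index type -/
def DG (D : (n : ℕ) → Set (Fin n → ℤ) → Prop) {γ : Type} (P : (γ → ℤ) → Prop) : Prop :=
  ∃ (n : ℕ) (f : Fin n → γ) (s : Set (Fin n → ℤ)), D n s ∧ ∀ v, P v ↔ v ∘ f ∈ s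

theorem DG.congr {P Q : (γ → ℤ) → Prop} (h : DG D P) (hPQ : ∀ v, P v ↔ Q v) : DG D Q := by
  obtain ⟨n, f, s, hs, h⟩ := h
  exact ⟨n, f, s, hs, fun v => (hPQ v).symm.trans (h v)⟩

theorem DG.not (hD : DS D) {P : (γ → ℤ) → Prop} (h : DG D P) : DG D (fun v => ¬ P v) := by
  obtain ⟨n, f, s, hs, h⟩ := h
  exact ⟨n, f, sᶜ, hD.compl hs, fun v => not_congr (h v)⟩

theorem DG.and (hD : DS D) {P Q : (γ → ℤ) → Prop} (h : DG D P) (h' : DG D Q) : DG D (fun v => P v ∧ Q v) := by
  obtain ⟨n, f, s, hs, h⟩ := h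
  obtain ⟨m, g, t, ht, h'⟩ := h'
  refine ⟨n + m, Fin.append f g, _, hD.inter (hD.comap (Fin.castAdd m) hs) (hD.comap (Fin.natAdd n) ht), fun v => ?_⟩
  change P v ∧ Q v ↔ _
  rw [h v, h' v]
  have e1 : (v ∘ Fin.append f g) ∘ Fin.castAdd m = v ∘ f := by
    funext i
    simp
  have e2 : (v ∘ Fin.append f g) ∘ Fin.natAdd n = v ∘ g := by
    funext i
    simp
  change _ ↔ (v ∘ Fin.append f g) ∘ Fin.castAdd m ∈ s ∧ (v ∘ Fin.append f g) ∘ Fin.natAdd n ∈ t
  rw [e1, e2]

theorem DG.or (hD : DS D) {P Q : (γ → ℤ) → Prop} (h : DG D P) (h' : DG D Q) : DG D (fun v => P v ∨ Q v) := by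
  refine ((h.not hD).and hD (h'.not hD)).not hD |>.congr fun v => ?_
  tauto

theorem DG.imp (hD : DS D) {P Q : (γ → ℤ) → Prop} (h : DG D P) (h' : DG D Q) : DG D (fun v => P v → Q v) := by
  refine ((h.and hD (h'.not hD)).not hD) |>.congr fun v => ?_
  tauto

theorem DG.reindex {P : (γ → ℤ) → Prop} (h : DG D P) (e : γ → δ) : DG D (fun u : δ → ℤ => P (u ∘ e)) := by
  obtain ⟨n, f, s, hs, h⟩ := h
  exact ⟨n, e ∘ f, s, hs, fun v => h _⟩

theorem ds_empty (hD : DS D) : ∀ n, D n ∅ := by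
  have h3 : D 3 ∅ := by
    have := hD.inter hD.add (hD.compl hD.add)
    rwa [Set.inter_compl_self] at this
  have h2 : D 2 ∅ := by simpa using hD.ex h3
  have h1 : D 1 ∅ := by simpa using hD.ex h2
  have h0 : D 0 ∅ := by simpa using hD.ex h1
  intro n
  simpa using hD.comap (n := n) (Fin.elim0 : Fin 0 → Fin n) h0

theorem ds_univ (hD : DS D) (n : ℕ) : D n Set.univ := by
  have := hD.compl (ds_empty hD n)
  rwa [Set.compl_empty] at this

theorem DG.const (hD : DS D) (p : Prop) : DG D (fun _ : γ → ℤ => p) := by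
  by_cases hp : p
  · exact ⟨0, Fin.elim0, Set.univ, ds_univ hD 0, fun v => by simp [hp]⟩
  · exact ⟨0, Fin.elim0, ∅, ds_empty hD 0, fun v => by simp [hp]⟩

theorem DG.ex (hD : DS D) {P : (Option γ → ℤ) → Prop} (h : DG D P) : DG D (fun v : γ → ℤ => ∃ z, P (ext v z)) := by
  classical
  rcases isEmpty_or_nonempty γ with hγ | ⟨⟨g0⟩⟩
  · refine (DG.const hD (∃ z, P (ext (fun _ => 0) z))).congr fun v => ?_
    rw [Subsingleton.elim v (fun _ => 0)]
  · obtain ⟨n, f, s, hs, h⟩ := h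
    set h' : Fin n → Fin (n + 1) := fun i => (f i).elim (Fin.last n) (fun _ => i.castSucc) with hh'
    set f' : Fin n → γ := fun i => (f i).getD g0 with hf'
    refine ⟨n, f', _, hD.ex (hD.comap h' hs), fun v => ?_⟩
    have key : ∀ z, (Fin.snoc (α := fun _ => ℤ) (v ∘ f') z : Fin (n + 1) → ℤ) ∘ h' = ext v z ∘ f := by
      intro z
      funext i
      rcases hfi : f i with _ | g
      · simp [hh', hfi, ext]
      · simp [hh', hfi, ext, hf']
    constructor
    · rintro ⟨z, hz⟩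
      refine ⟨z, ?_⟩
      change (Fin.snoc (α := fun _ => ℤ) (v ∘ f') z : Fin (n + 1) → ℤ) ∘ h' ∈ s
      rw [key]
      exact (h _).1 hz
    · rintro ⟨z, hz⟩
      refine ⟨z, (h _).2 ?_⟩
      rw [← key]
      exact hz

theorem DG.all (hD : DS D) {P : (Option γ → ℤ) → Prop} (h : DG D P) : DG D (fun v : γ → ℤ => ∀ z, P (ext v z)) := by
  refine ((h.not hD).ex hD).not hD |>.congr fun v => ?_
  push Not
  rfl

theorem DG_iff (hD : DS D) {n : ℕ} {P : (Fin n → ℤ) → Prop} : DG D P ↔ D n {v | P v} := by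
  constructor
  · rintro ⟨m, f, s, hs, h⟩
    have := hD.comap f hs
    convert this using 2
    funext v
    exact propext (h v)
  · intro h
    exact ⟨n, id, _, h, fun v => Iff.rfl⟩

theorem DG_set {n : ℕ} {s : Set (Fin n → ℤ)} (h : D n s) (e : Fin n → γ) : DG D (fun v : γ → ℤ => v ∘ e ∈ s) :=
  ⟨n, e, s, h, fun _ => Iff.rfl⟩

/-- functions with a definable graph -/
def DF (D : (n : ℕ) → Set (Fin n → ℤ) → Prop) {γ : Type} (t : (γ → ℤ) → ℤ) : Prop :=
  DG D (fun u : Option γ → ℤ => u none = t (u ∘ some))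

theorem DF.congr {t t' : (γ → ℤ) → ℤ} (h : DF D t) (htt : ∀ v, t v = t' v) : DF D t' :=
  DG.congr h fun v => by rw [htt]

theorem DG.subst1 (hD : DS D) {P : (Option γ → ℤ) → Prop} (h : DG D P) {t : (γ → ℤ) → ℤ} (ht : DF D t) :
    DG D (fun v => P (ext v (t v))) := by
  refine ((h.and hD ht).ex hD).congr fun v => ?_
  constructor
  · rintro ⟨z, h1, h2⟩
    have h3 : z = t v := h2
    rw [← h3]
    exact h1
  · intro h1
    exact ⟨t v, h1, rfl⟩

theorem DF.reindex {t : (γ → ℤ) → ℤ} (h : DF D t) (e : γ → δ) : DF D (fun u : δ → ℤ => t (u ∘ e)) := by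
  refine (DG.reindex h (Option.map e)).congr fun u => ?_
  have : (u ∘ Option.map e) ∘ some = (u ∘ some) ∘ e := rfl
  rw [this]
  rfl

theorem DG_add (hD : DS D) (a b c : γ) : DG D (fun v : γ → ℤ => v a + v b = v c) := by
  refine (DG_set hD.add ![a, b, c]).congr fun v => ?_
  rfl

theorem DG_const (hD : DS D) (a : γ) (c : ℤ) : DG D (fun v : γ → ℤ => v a = c) := by
  refine (DG_set (hD.const c) ![a]).congr fun v => ?_
  rfl

theorem DF.const (hD : DS D) (c : ℤ) : DF D (fun _ : γ → ℤ => c) := DG_const hD none c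

theorem DG_eqv (hD : DS D) (a b : γ) : DG D (fun v : γ → ℤ => v a = v b) := by
  have h := (DG_add hD (some a) none (some b)).subst1 hD (DF.const hD (γ := γ) 0)
  refine h.congr fun v => ?_
  change v a + 0 = v b ↔ _
  rw [add_zero]

theorem DF.var (hD : DS D) (a : γ) : DF D (fun v : γ → ℤ => v a) := DG_eqv hD none (some a)

theorem DF.add (hD : DS D) {t t' : (γ → ℤ) → ℤ} (h : DF D t) (h' : DF D t') : DF D (fun v => t v + t' v) := by
  -- variables: some none = result
  have h1 : DG D (fun u : Option (Option (Option γ)) → ℤ => u none + u (some none) = u (some (some none))) :=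
    DG_add hD _ _ _
  have h2 := h1.subst1 hD (t := fun u : Option (Option γ) → ℤ => t (u ∘ (some ∘ some))) (h.reindex _)
  have h3 := h2.subst1 hD (t := fun u : Option γ → ℤ => t' (u ∘ some)) (h'.reindex _)
  refine h3.congr fun u => ?_
  change t (u ∘ some) + t' (u ∘ some) = u none ↔ u none = t (u ∘ some) + t' (u ∘ some)
  exact eq_comm

theorem DG.eqt (hD : DS D) {t t' : (γ → ℤ) → ℤ} (h : DF D t) (h' : DF D t') : DG D (fun v => t v = t' v) := by
  have := DG.subst1 hD (P := fun u : Option γ → ℤ => u none = t' (u ∘ some)) h' h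
  exact this.congr fun v => Iff.rfl

theorem DF.neg (hD : DS D) {t : (γ → ℤ) → ℤ} (h : DF D t) : DF D (fun v => - t v) := by
  have h1 : DG D (fun u : Option γ → ℤ => u none + t (u ∘ some) = 0) :=
    DG.eqt hD (DF.add hD (DF.var hD none) (h.reindex some)) (DF.const hD 0)
  refine h1.congr fun u => ?_
  constructor <;> intro h <;> linarith

theorem DF.sub (hD : DS D) {t t' : (γ → ℤ) → ℤ} (h : DF D t) (h' : DF D t') : DF D (fun v => t v - t' v) :=
  (DF.add hD h (DF.neg hD h')).congr fun v => by ring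

theorem DF.nmul (hD : DS D) (k : ℕ) {t : (γ → ℤ) → ℤ} (h : DF D t) : DF D (fun v => k * t v) := by
  induction k with
  | zero => exact (DF.const hD 0).congr fun v => by simp
  | succ k ih => exact (DF.add hD ih h).congr fun v => by push_cast; ring

theorem DF.zmul (hD : DS D) (k : ℤ) {t : (γ → ℤ) → ℤ} (h : DF D t) : DF D (fun v => k * t v) := by
  rcases Int.eq_nat_or_neg k with ⟨n, rfl | rfl⟩
  · exact DF.nmul hD n h
  · exact (DF.neg hD (DF.nmul hD n h)).congr fun v => by ring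

theorem DF.sum (hD : DS D) {ι : Type} (S : Finset ι) (t : ι → (γ → ℤ) → ℤ) (h : ∀ i ∈ S, DF D (t i)) :
    DF D (fun v => ∑ i ∈ S, t i v) := by
  classical
  induction S using Finset.induction_on with
  | empty => exact (DF.const hD 0).congr fun v => by simp
  | insert a S ha ih =>
    refine (DF.add hD (h a (Finset.mem_insert_self _ _)) (ih fun i hi => h i (Finset.mem_insert_of_mem hi))).congr fun v => ?_
    rw [Finset.sum_insert ha]

theorem DF.evZ (hD : DS D) (l : γ →₀ ℤ) : DF D (fun v : γ → ℤ => Q200.CircData.evZ l v) :=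
  DF.sum hD l.support (fun b v => l b * v b) fun b _ => DF.zmul hD _ (DF.var hD b)

theorem DG.memt (hD : DS D) {Y : Set ℤ} (hY : D1 D Y) {t : (γ → ℤ) → ℤ} (h : DF D t) : DG D (fun v => t v ∈ Y) := by
  have h1 : DG D (fun u : Option γ → ℤ => u none ∈ Y) := DG_set hY ![none]
  exact (h1.subst1 hD h).congr fun v => Iff.rfl

theorem DG.modEq (hD : DS D) {t : (γ → ℤ) → ℤ} (h : DF D t) (r : ℤ) (N : ℕ) : DG D (fun v => t v ≡ r [ZMOD N]) := by
  have h1 : DG D (fun u : Option γ → ℤ => t (u ∘ some) = r + N * u none) :=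
    DG.eqt hD (h.reindex some) (DF.add hD (DF.const hD r) (DF.zmul hD N (DF.var hD none)))
  refine (h1.ex hD).congr fun v => ?_
  change (∃ z, t v = r + N * z) ↔ _
  rw [Int.modEq_comm, Int.modEq_iff_dvd]
  constructor
  · rintro ⟨z, hz⟩
    exact ⟨z, by rw [hz]; ring⟩
  · rintro ⟨z, hz⟩
    exact ⟨z, by linarith⟩

theorem DG.finsetAnd (hD : DS D) {ι : Type} (S : Finset ι) (P : ι → (γ → ℤ) → Prop) (h : ∀ i ∈ S, DG D (P i)) :
    DG D (fun v => ∀ i ∈ S, P i v) := by
  classical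
  induction S using Finset.induction_on with
  | empty => exact (DG.const hD True).congr fun v => by simp
  | insert a S ha ih =>
    refine (DG.and hD (h a (Finset.mem_insert_self _ _)) (ih fun i hi => h i (Finset.mem_insert_of_mem hi))).congr fun v => ?_
    rw [Finset.forall_mem_insert]

theorem DG.finsetOr (hD : DS D) {ι : Type} (S : Finset ι) (P : ι → (γ → ℤ) → Prop) (h : ∀ i ∈ S, DG D (P i)) :
    DG D (fun v => ∃ i ∈ S, P i v) := by
  refine ((DG.finsetAnd hD S (fun i v => ¬ P i v) fun i hi => (h i hi).not hD).not hD).congr fun v => ?_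
  push Not
  rfl

/-! ### one variable -/

theorem D1_iff (hD : DS D) {Y : Set ℤ} : D1 D Y ↔ DG D (fun v : Fin 1 → ℤ => v 0 ∈ Y) := (DG_iff hD).symm

theorem D1_of (hD : DS D) {Y : Set ℤ} {P : (Fin 1 → ℤ) → Prop} (h : DG D P) (hP : ∀ v, P v ↔ v 0 ∈ Y) : D1 D Y :=
  (D1_iff hD).2 (h.congr hP)

theorem D1_inter (hD : DS D) {Y Y' : Set ℤ} (h : D1 D Y) (h' : D1 D Y') : D1 D (Y ∩ Y') :=
  D1_of hD (((D1_iff hD).1 h).and hD ((D1_iff hD).1 h')) fun _ => Iff.rfl

theorem D1_compl (hD : DS D) {Y : Set ℤ} (h : D1 D Y) : D1 D Yᶜ :=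
  D1_of hD (((D1_iff hD).1 h).not hD) fun _ => Iff.rfl

theorem D1_union (hD : DS D) {Y Y' : Set ℤ} (h : D1 D Y) (h' : D1 D Y') : D1 D (Y ∪ Y') :=
  D1_of hD (((D1_iff hD).1 h).or hD ((D1_iff hD).1 h')) fun _ => Iff.rfl

theorem D1_finset (hD : DS D) (Z : Finset ℤ) : D1 D (Z : Set ℤ) := by
  refine D1_of hD (DG.finsetOr hD Z (fun z v => v 0 = z) fun z _ => DG_const hD 0 z) fun v => ?_
  constructor
  · rintro ⟨i, hi, h⟩
    rw [h]
    exact hi
  · intro h
    exact ⟨v 0, h, rfl⟩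

/-- change at finitely many integers -/
theorem D1_change (hD : DS D) {Y Y' : Set ℤ} (h : D1 D Y) (Z : Finset ℤ) (hZ : ∀ y ∉ Z, (y ∈ Y ↔ y ∈ Y')) : D1 D Y' := by
  classical
  have h1 : Y' = (Y ∩ (Z : Set ℤ)ᶜ) ∪ ((Z.filter (· ∈ Y') : Finset ℤ) : Set ℤ) := by
    ext y
    simp only [Set.mem_union, Set.mem_inter_iff, Set.mem_compl_iff, Finset.mem_coe, Finset.mem_filter]
    by_cases hy : y ∈ Z
    · tauto
    · have := hZ y hy
      tauto
  rw [h1]
  exact D1_union hD (D1_inter hD h (D1_compl hD (D1_finset hD Z))) (D1_finset hD _)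

/-- affine preimages -/
theorem D1_aff (hD : DS D) {Y : Set ℤ} (h : D1 D Y) (a b : ℤ) : D1 D {y | a + b * y ∈ Y} :=
  D1_of hD (DG.memt hD h (DF.add hD (DF.const hD a) (DF.zmul hD b (DF.var hD 0)))) fun _ => Iff.rfl

theorem D1_shift (hD : DS D) {Y : Set ℤ} (h : D1 D Y) (a : ℤ) : D1 D {y | y + a ∈ Y} := by
  have h1 := D1_aff hD h a 1
  have e : ∀ y : ℤ, a + 1 * y = y + a := fun y => by ring
  simpa only [e] using h1

/-! ### substitution of finitely many terms -/

/-- The reindexing of the variables at a quantifier. -/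
def re {γ : Type} {n : ℕ} : (γ ⊕ Fin (n + 1)) → Option (γ ⊕ Fin n) :=
  Sum.elim (fun a => some (Sum.inl a))
    (fun j => Fin.lastCases (motive := fun _ => Option (γ ⊕ Fin n)) none
      (fun j => some (Sum.inr j)) j)

theorem ext_re {γ : Type} {n : ℕ} (v : γ → ℤ) (xs : Fin n → ℤ) (z : ℤ) :
    ext (Sum.elim v xs) z ∘ re = Sum.elim v (Fin.snoc (α := fun _ => ℤ) xs z) := by
  funext o
  rcases o with a | j
  · rfl
  · induction j using Fin.lastCases with
    | last => simp [re, ext]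
    | cast j => simp [re, ext]

theorem DG.substFin (hD : DS D) : ∀ {k : ℕ} {P : (γ ⊕ Fin k → ℤ) → Prop}, DG D P → ∀ t : Fin k → (γ → ℤ) → ℤ, (∀ i, DF D (t i)) →
    DG D (fun v => P (Sum.elim v (fun i => t i v))) := by
  intro k
  induction k with
  | zero =>
    intro P h t _
    refine (h.reindex (Sum.elim id Fin.elim0)).congr fun v => ?_
    have : v ∘ Sum.elim id Fin.elim0 = Sum.elim v (fun i => t i v) := by
      funext o
      rcases o with a | j
      · rfl
      · exact j.elim0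
    rw [this]
  | succ k ih =>
    intro P h t ht
    have h1 := h.reindex (re (γ := γ) (n := k))
    have h2 := h1.subst1 hD (t := fun u : γ ⊕ Fin k → ℤ => t (Fin.last k) (u ∘ Sum.inl)) ((ht _).reindex _)
    have h3 := ih h2 (fun i => t i.castSucc) fun i => ht _
    refine h3.congr fun v => ?_
    have e : (ext (Sum.elim v (fun i => t i.castSucc v)) (t (Fin.last k) (Sum.elim v (fun i : Fin k => t i.castSucc v) ∘ Sum.inl))) ∘ re =
        Sum.elim v (fun i => t i v) := by
      rw [ext_re]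
      congr 1
      funext i
      induction i using Fin.lastCases with
      | last => simp
      | cast j => simp
    rw [e]

theorem DG.subst (hD : DS D) {k : ℕ} {s : Set (Fin k → ℤ)} (hs : D k s) (t : Fin k → (γ → ℤ) → ℤ) (ht : ∀ i, DF D (t i)) :
    DG D (fun v => (fun i => t i v) ∈ s) := by
  have h1 : DG D (fun u : γ ⊕ Fin k → ℤ => u ∘ Sum.inr ∈ s) := DG_set hs Sum.inr
  exact (h1.substFin hD t ht).congr fun v => Iff.rfl

/-- a definable set of tuples, some coordinates fixed -/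
theorem DG.substAll (hD : DS D) {ε : Type} {P : (ε → ℤ) → Prop} (h : DG D P) (t : ε → (γ → ℤ) → ℤ) (ht : ∀ i, DF D (t i)) :
    DG D (fun v => P (fun i => t i v)) := by
  obtain ⟨n, f, s, hs, h⟩ := h
  refine (DG.subst hD hs (fun i => t (f i)) fun i => ht _).congr fun v => ?_
  rw [h]
  rfl

end Pool.Agent.Q222.HZ
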