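import Pool.Agent.Q222.HZ.Lib
import Pool.Agent.TH574.PZ.Kron

set_option autoImplicit false

/-!
Project H200Z: density of the multiples of an irrational number, fractional parts. `kron_of_indep` is the lemma of helper200
(result MP_66c0d0_lc), copied.
-/

namespace Pool.Agent.Q222.HZ

open Pool.Agent.H200Z Q200.CircData

/-- The theorem of Kronecker for a family independent over the rationals together with `1`. -/
theorem kron_of_indep {ι : Type} [Fintype ι] [Nonempty ι] {θ : ι → ℝ}
    (hθ : ∀ (c : ι → ℤ) (c0 : ℤ), ∑ i, (c i : ℝ) * θ i = c0 → c = 0) : Kron θ := by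
  classical
  have base : ∀ a b : ι → ℝ, (∀ i, a i < b i) → ∃ k : ℤ, ∃ m : ι → ℤ, ∀ i,
      a i < (k : ℝ) * θ i - m i ∧ (k : ℝ) * θ i - m i < b i := by
    intro a b hab
    obtain ⟨i0, hi0⟩ := Finite.exists_min (fun i => b i - a i)
    set ε := (b i0 - a i0) / 2 with hε
    have hεpos : 0 < ε := by rw [hε]; linarith [hab i0]
    have hεle : ∀ i, ε ≤ (b i - a i) / 2 := fun i => by rw [hε]; linarith [hi0 i]
    let y : UnitAddTorus ι := fun i => (θ i : UnitAddCircle)
    let g : UnitAddTorus ι := fun i => (((a i + b i) / 2 : ℝ) : UnitAddCircle)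
    obtain ⟨k, hk⟩ := Pool.Agent.TH574.PZ.kronecker y g (by
      intro c hc
      have h1 : ((∑ i, (c i : ℝ) * θ i : ℝ) : UnitAddCircle) = 0 := by
        rw [← hc]
        simp only [y]
        rw [← QuotientAddGroup.mk'_apply, map_sum]
        apply Finset.sum_congr rfl
        intro i _
        rw [← zsmul_eq_mul, map_zsmul]
        rfl
      obtain ⟨n, hn⟩ := (AddCircle.coe_eq_zero_iff (1 : ℝ)).mp h1
      have h2 := hθ c n (by rw [← hn]; simp)
      rw [h2]; simp) ε hεpos
    have hk' : ∀ i, dist (k • y i) (g i) < ε := fun i =>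
      lt_of_le_of_lt (dist_le_pi_dist (k • y) g i) hk
    have hm : ∀ i, ∃ m : ℤ, |(k : ℝ) * θ i - m - (a i + b i) / 2| < ε := by
      intro i
      have h1 := hk' i
      rw [dist_eq_norm] at h1
      have h2 : k • y i - g i = (((k : ℝ) * θ i - (a i + b i) / 2 : ℝ) : UnitAddCircle) := by
        simp only [y, g]
        rw [AddCircle.coe_sub]
        congr 1
        rw [← zsmul_eq_mul]
        rfl
      rw [h2, UnitAddCircle.norm_eq] at h1
      refine ⟨round ((k : ℝ) * θ i - (a i + b i) / 2), ?_⟩
      convert h1 using 2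
      ring
    choose m hm using hm
    refine ⟨k, m, fun i => ?_⟩
    have h1 := hm i
    have h2 := hεle i
    rw [abs_lt] at h1
    constructor <;> linarith [h1.1, h1.2]
  intro a b hab Z
  -- avoid the elements of `Z` one after the other
  induction Z using Finset.induction_on generalizing a b with
  | empty =>
    obtain ⟨k, m, hk⟩ := base a b hab
    exact ⟨k, by simp, m, hk⟩
  | insert k0 Z _ ih =>
    -- shrink to length at most one
    set b' : ι → ℝ := fun i => min (b i) (a i + 1) with hb'
    have hab' : ∀ i, a i < b' i := fun i => lt_min (hab i) (by linarith)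
    have hb'b : ∀ i, b' i ≤ b i := fun i => min_le_left _ _
    have hb'a : ∀ i, b' i ≤ a i + 1 := fun i => min_le_right _ _
    obtain ⟨k, hk, m, hm⟩ := ih a b' hab'
    by_cases hk0 : k = k0
    · subst hk0
      obtain ⟨i0⟩ := (inferInstance : Nonempty ι)
      let b'' : ι → ℝ := Function.update b' i0 ((k : ℝ) * θ i0 - m i0)
      have hab'' : ∀ i, a i < b'' i := by
        intro i
        by_cases h : i = i0
        · subst h; simp only [b'', Function.update_self]; exact (hm i).1
        · simp only [b'', Function.update_of_ne h]; exact hab' i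
      have hb''b' : ∀ i, b'' i ≤ b' i := by
        intro i
        by_cases h : i = i0
        · subst h; simp only [b'', Function.update_self]; exact (hm i).2.le
        · simp only [b'', Function.update_of_ne h]; exact le_rfl
      obtain ⟨k', hk', m', hm'⟩ := ih a b'' hab''
      refine ⟨k', ?_, m', fun i => ⟨(hm' i).1,
        lt_of_lt_of_le (hm' i).2 ((hb''b' i).trans (hb'b i))⟩⟩
      intro hmem
      rcases Finset.mem_insert.mp hmem with rfl | hmem
      · have h1 := hm' i0
        simp only [b'', Function.update_self] at h1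
        have h2 := hm i0
        have h3 := hb'a i0
        have h4 : (m' i0 : ℝ) - m i0 < 1 := by linarith [h1.1, h2.2]
        have h5 : (m i0 : ℝ) < m' i0 := by linarith [h1.2]
        have h6 : m i0 < m' i0 := by exact_mod_cast h5
        have h7 : ((m' i0 - m i0 : ℤ) : ℝ) < 1 := by push_cast; exact h4
        have h8 : m' i0 - m i0 < 1 := by exact_mod_cast h7
        omega
      · exact hk' hmem
    · exact ⟨k, fun hmem => (Finset.mem_insert.mp hmem).elim hk0 hk, m, fun i =>
        ⟨(hm i).1, lt_of_lt_of_le (hm i).2 (hb'b i)⟩⟩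

theorem kron1 {α : ℝ} (hα : Irrational α) : Kron (fun _ : Unit => α) := by
  apply kron_of_indep
  intro c c0 h
  funext i
  rw [Finset.univ_unique, Finset.sum_singleton] at h
  by_contra hne
  have h1 : Irrational ((c default : ℝ) * α) := hα.intCast_mul (by
    intro h'
    apply hne
    cases i
    exact h')
  rw [h] at h1
  exact c0.not_irrational h1

/-- density of the multiples in a progression, modulo an integer -/
theorem dens {α : ℝ} (hα : Irrational α) {a b : ℝ} (hab : a < b) (r : ℤ) {M N : ℕ} (hM : 0 < M) (hN : 0 < N) (Z : Finset ℤ) :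
    ∃ k m : ℤ, r + M * k ∉ Z ∧ a < ((r + M * k : ℤ) : ℝ) * α - N * m ∧ ((r + M * k : ℤ) : ℝ) * α - N * m < b := by
  classical
  have hN' : (0 : ℝ) < N := by exact_mod_cast hN
  have hM' : (0 : ℝ) < M := by exact_mod_cast hM
  have h1 : Irrational ((M : ℝ) * α / N) := (hα.natCast_mul hM.ne').div_natCast hN.ne'
  obtain ⟨k, hk, m, hm⟩ := kron1 h1 (fun _ => (a - r * α) / N) (fun _ => (b - r * α) / N)
    (fun _ => by
      apply div_lt_div_of_pos_right _ hN'
      linarith) (Z.image fun z => (z - r) / M)
  have hm1 := (hm ()).1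
  have hm2 := (hm ()).2
  rw [div_lt_iff₀ hN'] at hm1
  rw [lt_div_iff₀ hN'] at hm2
  have e : ((k : ℝ) * (M * α / N) - m ()) * N = k * M * α - N * m () := by
    field_simp
  rw [e] at hm1 hm2
  refine ⟨k, m (), ?_, ?_, ?_⟩
  · intro hz
    apply hk
    rw [Finset.mem_image]
    refine ⟨_, hz, ?_⟩
    rw [show r + (M : ℤ) * k - r = M * k by ring]
    exact Int.mul_ediv_cancel_left _ (by exact_mod_cast hM.ne')
  · push_cast
    linarith
  · push_cast
    linarith

/-- density of the multiples modulo one -/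
theorem dens1 {α : ℝ} (hα : Irrational α) {a b : ℝ} (hab : a < b) (Z : Finset ℤ) :
    ∃ k m : ℤ, k ∉ Z ∧ a < (k : ℝ) * α - m ∧ (k : ℝ) * α - m < b := by
  obtain ⟨k, m, h1, h2, h3⟩ := dens hα hab 0 one_pos one_pos Z
  simp only [Nat.cast_one, one_mul, zero_add] at h1 h2 h3
  exact ⟨k, m, h1, h2, h3⟩

theorem fr_of {x u : ℝ} (n : ℤ) (h : x = u + n) (h0 : 0 ≤ u) (h1 : u < 1) : Int.fract x = u := by
  rw [Int.fract_eq_iff]
  exact ⟨h0, h1, n, by linarith⟩

theorem fr_congr {x u : ℝ} (n : ℤ) (h : x = u + n) : Int.fract x = Int.fract u := by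
  rw [h, Int.fract_add_intCast]

/-- the point `y α` is congruent to a given number for at most one `y` -/
theorem inj {α : ℝ} (hα : Irrational α) {x y n : ℤ} (h : (x : ℝ) * α - y * α = n) : x = y := by
  by_contra hne
  have h1 : Irrational (((x - y : ℤ) : ℝ) * α) := hα.intCast_mul (sub_ne_zero.2 hne)
  rw [show ((x - y : ℤ) : ℝ) * α = n by push_cast; linarith] at h1
  exact n.not_irrational h1

theorem inj' {α : ℝ} (hα : Irrational α) {x y : ℤ} (h : Int.fract ((x : ℝ) * α) = Int.fract ((y : ℝ) * α)) : x = y := by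
  obtain ⟨n, hn⟩ := Int.fract_eq_fract.1 h
  exact inj hα hn

theorem fr_pos {α : ℝ} (hα : Irrational α) {x : ℤ} (h : x ≠ 0) : 0 < Int.fract ((x : ℝ) * α) := by
  apply lt_of_le_of_ne (Int.fract_nonneg _)
  intro h'
  apply h
  apply inj' hα
  rw [← h', Int.cast_zero, zero_mul, Int.fract_zero]

/-- `{y | {y α} = c}` is finite -/
theorem fin_eq {α : ℝ} (hα : Irrational α) (c t : ℝ) : {y : ℤ | Int.fract ((y : ℝ) * α - t) = c}.Finite := by
  apply Set.Subsingleton.finite
  intro x hx y hy
  have h : Int.fract ((x : ℝ) * α - t) = Int.fract ((y : ℝ) * α - t) := (show _ = c from hx).trans (show _ = c from hy).symm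
  obtain ⟨n, hn⟩ := Int.fract_eq_fract.1 h
  exact inj hα (n := n) (by linarith)

end Pool.Agent.Q222.HZ
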