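import Pool.Agent.Q222.HZ.Defs

/-!
# Large constant tuples
-/

namespace Q222.HZ

theorem act_append {Q L : Type} (a : L → Q → Q) (u v : List L) (p : Q) :
    act a (u ++ v) p = act a v (act a u p) := by
  induction u generalizing p with
  | nil => rfl
  | cons i u ih => exact ih _

theorem act_replicate {Q L : Type} (a : L → Q → Q) (i : L) (t : ℕ) (p : Q) :
    act a (List.replicate t i) p = (a i)^[t] p := by
  induction t generalizing p with
  | zero => rfl
  | succ t ih =>
    rw [List.replicate_succ, act, ih, Function.iterate_succ_apply]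

/-- Short words suffice for reachability. -/
theorem short_word {X L : Type} [Fintype X] (a : L → X → X) (x y : X) :
    ∀ w : List L, act a w x = y → ∃ w' : List L, w'.length < Fintype.card X ∧ act a w' x = y := by
  classical
  intro w
  induction hl : w.length using Nat.strong_induction_on generalizing w with
  | _ l ih =>
    intro hw
    by_cases hlt : w.length < Fintype.card X
    · exact ⟨w, hlt, hw⟩
    · have hni : ¬ Function.Injective (fun t : Fin (w.length + 1) => act a (w.take t) x) := by
        intro hinj
        have := Fintype.card_le_of_injective _ hinj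
        rw [Fintype.card_fin] at this
        omega
      rw [Function.Injective] at hni
      push Not at hni
      obtain ⟨s, t, hst, hne⟩ := hni
      have key : ∀ s t : Fin (w.length + 1), s < t →
          act a (w.take s) x = act a (w.take t) x →
          ∃ w' : List L, w'.length < Fintype.card X ∧ act a w' x = y := by
        intro s t hlt' he
        have hs : s.val < t.val := hlt'
        have ht := t.2
        refine ih (w.take s ++ w.drop t).length ?_ (w.take s ++ w.drop t) rfl ?_
        · rw [List.length_append, List.length_take, List.length_drop, ← hl]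
          omega
        · rw [act_append, he, ← act_append, List.take_append_drop, hw]
      rcases lt_or_gt_of_ne hne with h | h
      · exact key s t h hst
      · exact key t s h hst.symm

/-- Every map of a finite nonempty set has a cycle of length at most the number of points. -/
theorem exists_cycle {n : ℕ} (hn : 0 < n) (f : Fin n → Fin n) :
    ∃ (r : Fin n) (c : ℕ), 1 ≤ c ∧ c ≤ n ∧ f^[c] r = r := by
  classical
  have hni : ¬ Function.Injective (fun t : Fin (n + 1) => f^[t.val] ⟨0, hn⟩) := by
    intro hinj
    have := Fintype.card_le_of_injective _ hinj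
    rw [Fintype.card_fin, Fintype.card_fin] at this
    omega
  rw [Function.Injective] at hni
  push Not at hni
  obtain ⟨s, t, hst, hne⟩ := hni
  have key : ∀ s t : Fin (n + 1), s < t → f^[s.val] ⟨0, hn⟩ = f^[t.val] ⟨0, hn⟩ →
      ∃ (r : Fin n) (c : ℕ), 1 ≤ c ∧ c ≤ n ∧ f^[c] r = r := by
    intro s t hlt he
    have hs : s.val < t.val := hlt
    have ht := t.2
    refine ⟨f^[s.val] ⟨0, hn⟩, t.val - s.val, by omega, by omega, ?_⟩
    rw [← Function.iterate_add_apply]
    have : t.val - s.val + s.val = t.val := by omega
    rw [this, he]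
  rcases lt_or_gt_of_ne hne with h | h
  · exact key s t h hst
  · exact key t s h hst.symm

theorem iterate_mul_cycle {n : ℕ} {f : Fin n → Fin n} {r : Fin n} {c : ℕ} (h : f^[c] r = r)
    {t : ℕ} (ht : c ∣ t) : f^[t] r = r := by
  obtain ⟨k, rfl⟩ := ht
  rw [Function.iterate_mul]
  exact Function.iterate_fixed h k

/-! ### the residues -/

section
variable {n m : ℕ} (a : Fin m → Fin n → Fin n) (c : Fin m → ℕ)

/-- The vector of residues of the letter counts. -/
def res (w : List (Fin m)) : ∀ i, ZMod (c i) := fun i => ((w.count i : ℕ) : ZMod (c i))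

theorem res_append (u v : List (Fin m)) : res c (u ++ v) = res c u + res c v := by
  funext i
  simp [res, List.count_append]

/-- The product automaton. -/
def pa (i : Fin m) (x : Fin n × (∀ i, ZMod (c i))) : Fin n × (∀ i, ZMod (c i)) :=
  (a i x.1, x.2 + res c [i])

theorem act_pa (w : List (Fin m)) (x : Fin n × (∀ i, ZMod (c i))) :
    act (pa a c) w x = (act a w x.1, x.2 + res c w) := by
  induction w generalizing x with
  | nil =>
    apply Prod.ext
    · rfl
    · funext i
      simp [act, res]
  | cons i w ih =>
    rw [act, ih]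
    apply Prod.ext
    · rfl
    · show x.2 + res c [i] + res c w = x.2 + res c (i :: w)
      rw [add_assoc, ← res_append]
      rfl

variable {a c}

/-- All residues are realised by closed words. -/
theorem all_res (hc : ∀ i, 1 ≤ c i) (α : Fin m → ℕ)
    (hα : ∀ p q, ∃ w : List (Fin m), (∀ i, w.count i = α i) ∧ act a w p = q) (p : Fin n)
    (ρ : ∀ i, ZMod (c i)) : ∃ w, act a w p = p ∧ res c w = ρ := by
  classical
  have : ∀ i, NeZero (c i) := fun i => ⟨by have := hc i; omega⟩
  -- the submonoid of realised residues
  let S : AddSubmonoid (∀ i, ZMod (c i)) :=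
    { carrier := {ρ | ∃ w, act a w p = p ∧ res c w = ρ}
      zero_mem' := ⟨[], rfl, by funext i; simp [res]⟩
      add_mem' := by
        rintro x y ⟨u, hu, rfl⟩ ⟨v, hv, rfl⟩
        exact ⟨u ++ v, by rw [act_append, hu, hv], res_append c u v⟩ }
  have hmem : ∀ x, x ∈ S ↔ ∃ w, act a w p = p ∧ res c w = x := fun x => Iff.rfl
  obtain ⟨u, hu, hup⟩ := hα p p
  have huS : res c u ∈ S := ⟨u, hup, rfl⟩
  have he : ∀ i, res c [i] ∈ S := by
    intro i
    obtain ⟨v, hv, hvp⟩ := hα (a i p) p
    have h1 : res c [i] + res c u ∈ S := by
      refine ⟨i :: v, hvp, ?_⟩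
      have : i :: v = [i] ++ v := rfl
      rw [this, res_append]
      congr 1
      funext j
      simp only [res]
      rw [hv j, hu j]
    have hpos : 0 < addOrderOf (res c u) := addOrderOf_pos _
    have h2 : res c [i] = (res c [i] + res c u) + (addOrderOf (res c u) - 1) • res c u := by
      have h3 : res c u + (addOrderOf (res c u) - 1) • res c u = 0 := by
        have : res c u + (addOrderOf (res c u) - 1) • res c u =
            (1 + (addOrderOf (res c u) - 1)) • res c u := by
          rw [add_nsmul, one_nsmul]
        rw [this, show 1 + (addOrderOf (res c u) - 1) = addOrderOf (res c u) by omega]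
        exact addOrderOf_nsmul_eq_zero _
      rw [add_assoc, h3, add_zero]
    rw [h2]
    exact S.add_mem h1 (S.nsmul_mem huS _)
  rw [← hmem]
  have h4 : ρ = ∑ i, (ρ i).val • res c [i] := by
    funext j
    rw [Finset.sum_apply, Finset.sum_eq_single j]
    · simp only [Pi.smul_apply, res, List.count_singleton, beq_self_eq_true, if_true,
        Nat.cast_one, nsmul_eq_mul, mul_one]
      exact (ZMod.natCast_zmod_val _).symm
    · intro i _ hij
      simp only [Pi.smul_apply, res]
      rw [List.count_singleton]
      simp [hij]
    · intro hj; exact absurd (Finset.mem_univ _) hj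
  rw [h4]
  exact S.sum_mem (fun i _ => S.nsmul_mem (he i) _)

/-- Insert full turns of all cycles. -/
theorem insert_cycles (hconn : ∀ p q, ∃ w : List (Fin m), act a w p = q) (r : Fin m → Fin n)
    (hr : ∀ i, (a i)^[c i] (r i) = r i) :
    ∀ (Ls : List (Fin m)) (p : Fin n), ∃ (W0 : List (Fin m)) (s : Fin n),
      W0.length ≤ Ls.length * n ∧ ∀ t : Fin m → ℕ, (∀ i, c i ∣ t i) → ∃ W : List (Fin m),
        act a W p = s ∧ ∀ i, W.count i = W0.count i + Ls.count i * t i := by
  intro Ls
  induction Ls with
  | nil =>
    intro p
    exact ⟨[], p, by simp, fun t _ => ⟨[], rfl, by simp⟩⟩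
  | cons j Ls ih =>
    intro p
    obtain ⟨x0, hx0⟩ := hconn p (r j)
    obtain ⟨x, hxl, hx⟩ := short_word a p (r j) x0 hx0
    rw [Fintype.card_fin] at hxl
    obtain ⟨W0, s, hW0, hall⟩ := ih (r j)
    refine ⟨x ++ W0, s, ?_, ?_⟩
    · rw [List.length_append, List.length_cons, add_mul, one_mul]
      omega
    · intro t ht
      obtain ⟨W, hW, hWc⟩ := hall t ht
      refine ⟨x ++ (List.replicate (t j) j ++ W), ?_, ?_⟩
      · rw [act_append, act_append, hx, act_replicate, iterate_mul_cycle (hr j) (ht j), hW]
      · intro i
        rw [List.count_append, List.count_append, List.count_append, hWc i, List.count_replicate,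
          List.count_cons]
        by_cases hji : j = i
        · subst hji
          simp
          ring
        · simp [hji]
          ring

/-- All large tuples are realised between any two states. -/
theorem large (hn : 0 < n) (α : Fin m → ℕ)
    (hα : ∀ p q, ∃ w : List (Fin m), (∀ i, w.count i = α i) ∧ act a w p = q)
    (β : Fin m → ℕ) (hβ : ∀ i, m * n + n ^ (m + 1) ≤ β i) (p q : Fin n) :
    ∃ w : List (Fin m), (∀ i, w.count i = β i) ∧ act a w p = q := by
  classical
  choose r c hc1 hcn hr using fun i => exists_cycle hn (a i)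
  have : ∀ i, NeZero (c i) := fun i => ⟨by have := hc1 i; omega⟩
  have hconn : ∀ p q, ∃ w : List (Fin m), act a w p = q := fun p q =>
    let ⟨w, _, h⟩ := hα p q
    ⟨w, h⟩
  obtain ⟨W0, s, hW0, hall⟩ := insert_cycles hconn r hr (List.finRange m) p
  rw [List.length_finRange] at hW0
  -- the last piece with prescribed residues
  obtain ⟨y, hy⟩ := hconn s q
  obtain ⟨z0, hz0, hz0r⟩ := all_res hc1 α hα s
    ((fun i => ((β i : ℕ) : ZMod (c i))) - res c W0 - res c y)
  obtain ⟨z, hzl, hz⟩ := short_word (pa a c) (s, 0)
    (q, (fun i => ((β i : ℕ) : ZMod (c i))) - res c W0) (z0 ++ y) (by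
      rw [act_pa]
      apply Prod.ext
      · show act a (z0 ++ y) s = q
        rw [act_append, hz0, hy]
      · show 0 + res c (z0 ++ y) = _
        rw [res_append, hz0r]
        ring)
  rw [act_pa] at hz
  have hzq : act a z s = q := congrArg Prod.fst hz
  have hzr : res c z = (fun i => ((β i : ℕ) : ZMod (c i))) - res c W0 := by
    have := congrArg Prod.snd hz
    simpa using this
  have hcard : Fintype.card (Fin n × (∀ i, ZMod (c i))) ≤ n ^ (m + 1) := by
    rw [Fintype.card_prod, Fintype.card_fin, Fintype.card_pi, pow_succ, mul_comm]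
    apply Nat.mul_le_mul_right
    calc ∏ i, Fintype.card (ZMod (c i)) ≤ ∏ _i : Fin m, n := by
          apply Finset.prod_le_prod'
          intro i _
          rw [ZMod.card]
          exact hcn i
      _ = n ^ m := by simp
  have hle : ∀ i, W0.count i + z.count i ≤ β i := by
    intro i
    have h1 := hβ i
    have h2 : W0.count i ≤ W0.length := List.count_le_length
    have h3 : z.count i ≤ z.length := List.count_le_length
    omega
  have hdvd : ∀ i, c i ∣ β i - (W0.count i + z.count i) := by
    intro i
    have h1 := congrFun hzr i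
    simp only [res, Pi.sub_apply] at h1
    rw [← ZMod.natCast_eq_zero_iff, Nat.cast_sub (hle i)]
    push_cast
    rw [h1]
    ring
  obtain ⟨W, hWs, hWc⟩ := hall (fun i => β i - (W0.count i + z.count i)) hdvd
  refine ⟨W ++ z, fun i => ?_, by rw [act_append, hWs, hzq]⟩
  rw [List.count_append, hWc i]
  have h1 : (List.finRange m).count i = 1 :=
    List.count_eq_one_of_mem (List.nodup_finRange m) (List.mem_finRange i)
  rw [h1, one_mul]
  have := hle i
  omega

end

/-! ### Hurwitz products and words -/

section
variable {n m : ℕ}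

theorem prod_mat (a : Fin m → Fin n → Fin n) (w : List (Fin m)) (q p : Fin n) :
    ((w.map (fun i => mat (a i))).prod) q p = if act a w.reverse p = q then 1 else 0 := by
  induction w generalizing q with
  | nil =>
    simp only [List.map_nil, List.prod_nil, List.reverse_nil, act, Matrix.one_apply]
    by_cases h : q = p
    · simp [h]
    · have h' : ¬ p = q := fun e => h e.symm
      simp [h, h']
  | cons i w ih =>
    rw [List.map_cons, List.prod_cons, Matrix.mul_apply, List.reverse_cons, act_append]
    have hm : ∀ q p, mat (a i) q p = if a i p = q then 1 else 0 := fun _ _ => rfl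
    simp only [ih, hm, act]
    rw [Finset.sum_eq_single (act a w.reverse p)]
    · by_cases h : a i (act a w.reverse p) = q <;> simp [h]
    · intro b _ hb
      have : ¬ act a w.reverse p = b := fun e => hb e.symm
      simp [this]
    · intro h; exact absurd (Finset.mem_univ _) h

theorem count_ofFn {k : ℕ} (w : Fin k → Fin m) (i : Fin m) :
    (List.ofFn w).count i = (Finset.univ.filter (fun t => w t = i)).card := by
  induction k with
  | zero => simp
  | succ k ih =>
    rw [List.ofFn_succ, List.count_cons, ih]
    have h1 : (Finset.univ.filter (fun t : Fin (k + 1) => w t = i)).card =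
        ∑ t : Fin (k + 1), if w t = i then 1 else 0 := by
      rw [Finset.card_filter]
    have h2 : (Finset.univ.filter (fun t : Fin k => w t.succ = i)).card =
        ∑ t : Fin k, if w t.succ = i then 1 else 0 := by
      rw [Finset.card_filter]
    rw [h1, h2, Fin.sum_univ_succ]
    by_cases h : w 0 = i
    · simp [h]; ring
    · simp [h]

theorem sum_count (w : List (Fin m)) : ∑ i, w.count i = w.length := by
  induction w with
  | nil => simp
  | cons j w ih =>
    simp only [List.count_cons, Finset.sum_add_distrib, ih, List.length_cons]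
    congr 1
    rw [Finset.sum_eq_single j]
    · simp
    · intro b _ hb
      simp [hb.symm]
    · intro h; exact absurd (Finset.mem_univ _) h

theorem hurwitz_pos_iff (a : Fin m → Fin n → Fin n) (α : Fin m → ℕ) (q p : Fin n) :
    0 < hurwitz a α q p ↔ ∃ w : List (Fin m), (∀ i, w.count i = α i) ∧ act a w p = q := by
  classical
  unfold hurwitz
  rw [Matrix.sum_apply]
  constructor
  · intro h
    obtain ⟨w, hw, hpos⟩ := Finset.exists_ne_zero_of_sum_ne_zero (Nat.pos_iff_ne_zero.1 h)
    rw [prod_mat] at hpos
    have hq : act a (List.ofFn w).reverse p = q := by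
      by_contra hne
      rw [if_neg hne] at hpos
      exact hpos rfl
    refine ⟨(List.ofFn w).reverse, fun i => ?_, hq⟩
    rw [List.count_reverse, count_ofFn]
    exact (Finset.mem_filter.1 hw).2 i
  · rintro ⟨w, hw, hq⟩
    have hlen : w.reverse.length = ∑ i, α i := by
      rw [List.length_reverse]
      rw [← Finset.sum_congr rfl (fun i _ => hw i)]
      exact (sum_count w).symm
    let v : Fin (∑ i, α i) → Fin m := fun t => w.reverse.get (t.cast hlen.symm)
    have hv : List.ofFn v = w.reverse := by
      apply List.ext_get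
      · rw [List.length_ofFn, hlen]
      · intro k h1 h2
        simp [v]
    refine lt_of_lt_of_le ?_ (Finset.single_le_sum (f := fun w : Fin (∑ i, α i) → Fin m =>
      ((List.ofFn w).map (fun i => mat (a i))).prod q p) (fun _ _ => Nat.zero_le _)
      (show v ∈ _ from ?_))
    · show 0 < ((List.ofFn v).map (fun i => mat (a i))).prod q p
      rw [prod_mat, hv, List.reverse_reverse, if_pos hq]
      exact Nat.one_pos
    · rw [Finset.mem_filter]
      refine ⟨Finset.mem_univ _, fun i => ?_⟩
      rw [← count_ofFn, hv, List.count_reverse, hw i]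

theorem bound_le (hn : 0 < n) : m * n + n ^ (m + 1) ≤ 2 ^ (n * (m + 2)) := by
  have h1 : n ≤ 2 ^ n := Nat.lt_two_pow_self.le
  have h2 : m ≤ 2 ^ m := Nat.lt_two_pow_self.le
  have h3 : n ^ (m + 1) ≤ (2 ^ n) ^ (m + 1) := Nat.pow_le_pow_left h1 _
  have h4 : m * n ≤ (2 ^ n) ^ (m + 1) := by
    rw [pow_succ]
    apply Nat.mul_le_mul _ h1
    calc m ≤ 2 ^ m := h2
      _ ≤ (2 ^ n) ^ m := Nat.pow_le_pow_left (by
          calc 2 = 2 ^ 1 := by norm_num
            _ ≤ 2 ^ n := Nat.pow_le_pow_right (by norm_num) hn) _
  have h5 : (2 : ℕ) ^ (n * (m + 2)) = 2 ^ n * (2 ^ n) ^ (m + 1) := by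
    rw [pow_mul]
    ring
  have h6 : 2 ≤ 2 ^ n := by
    calc 2 = 2 ^ 1 := by norm_num
      _ ≤ 2 ^ n := Nat.pow_le_pow_right (by norm_num) hn
  rw [h5]
  calc m * n + n ^ (m + 1) ≤ 2 * (2 ^ n) ^ (m + 1) := by omega
    _ ≤ 2 ^ n * (2 ^ n) ^ (m + 1) := Nat.mul_le_mul_right _ h6

end

end Q222.HZ
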