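import Mathlib

/-!
# Hurwitz products and reset tuples
-/

namespace Q222.HZ

variable {n m : ℕ}

/-- The action of a word (read from left to right) on a state. -/
def act {Q L : Type} (a : L → Q → Q) : List L → Q → Q
  | [], p => p
  | i :: w, p => act a w (a i p)

/-- `α` is a reset `m`-tuple: `|α| ≥ 1` and there is a state `q₀` such that every state is sent to
`q₀` by some word with letter counts `α`. -/
def ResetTuple (a : Fin m → Fin n → Fin n) (α : Fin m → ℕ) : Prop :=
  1 ≤ ∑ i, α i ∧ ∃ q₀, ∀ p, ∃ w : List (Fin m), (∀ i, w.count i = α i) ∧ act a w p = q₀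

/-- The 0-1 matrix of a map: the entry `(q, p)` is `1` iff `f p = q`. -/
def mat (f : Fin n → Fin n) : Matrix (Fin n) (Fin n) ℕ :=
  Matrix.of fun q p => if f p = q then 1 else 0

/-- The Hurwitz product: the sum of all products of `|α|` factors from `A_1, …, A_m` containing
exactly `α i` factors equal to `A_i`, for each `i`. -/
def hurwitz (a : Fin m → Fin n → Fin n) (α : Fin m → ℕ) : Matrix (Fin n) (Fin n) ℕ :=
  ∑ w ∈ Finset.univ.filter (fun w : Fin (∑ i, α i) → Fin m =>
    ∀ i, (Finset.univ.filter (fun t => w t = i)).card = α i),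
    ((List.ofFn w).map (fun i => mat (a i))).prod

/-- The automaton is `m`-primitive: some Hurwitz product (`|α| ≥ 1`) has all entries positive. -/
def MPrimitive (a : Fin m → Fin n → Fin n) : Prop :=
  ∃ α : Fin m → ℕ, 1 ≤ ∑ i, α i ∧ ∀ q p, 0 < hurwitz a α q p

end Q222.HZ
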