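import Pool.Agent.Q222.HZ.Lib
import Pool.Agent.H200Z.Lang

set_option autoImplicit false

/-!
Project H200Z, jobs Z7, Z10, Z8.
-/

namespace Pool.Agent.Q222.HZ

open Pool.Agent.H200Z Q200.CircData
open FirstOrder FirstOrder.Language

universe u v

theorem z7 : Z7.{u, v} := by
  intro L S hadd
  refine ⟨?_, ?_, ?_, ?_, hadd, ?_⟩
  · intro n s t hs ht
    exact Set.Definable.inter hs ht
  · intro n s hs
    exact Set.Definable.compl hs
  · intro m n f s hs
    exact Set.Definable.preimage_comp f hs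
  · intro n s hs
    have h1 := @Set.Definable.image_comp ℤ Set.univ L S _ _ s hs (Fin.castSucc : Fin n → Fin (n + 1)) _ _
    have e : {v : Fin n → ℤ | ∃ t : ℤ, (Fin.snoc (α := fun _ => ℤ) v t : Fin (n + 1) → ℤ) ∈ s} =
        (fun g : Fin (n + 1) → ℤ => g ∘ Fin.castSucc) '' s := by
      ext v
      constructor
      · rintro ⟨t, ht⟩
        refine ⟨_, ht, ?_⟩
        funext i
        simp
      · rintro ⟨g, hg, rfl⟩
        refine ⟨g (Fin.last n), ?_⟩
        convert hg using 1
        funext i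
        induction i using Fin.lastCases with
        | last => simp
        | cast j => simp
    unfold Dfn
    rw [e]
    exact h1
  · intro c
    refine (@Set.definable_iff_exists_formula_sum ℤ Set.univ L S (Fin 1) _).2
      ⟨Term.equal (Term.var (Sum.inr 0)) (Term.var (Sum.inl ⟨c, trivial⟩)), ?_⟩
    ext v
    simp [Formula.realize_equal]

theorem z10 : Z10 := by
  refine ⟨fun hD Y N r hY => ?_, ?_⟩
  · have := D1_aff hD hY r N
    exact this
  · let S := gStr
    refine (@Set.definable_iff_exists_formula_sum ℤ Set.univ Lg S (Fin 3) _).2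
      ⟨Term.equal (Functions.apply₂ (L := Lg) AddFn.add (Term.var (Sum.inr 0)) (Term.var (Sum.inr 1))) (Term.var (Sum.inr 2)), ?_⟩
    ext v
    rw [Set.mem_ofPred_eq, Set.mem_ofPred_eq, Formula.realize_equal]
    rfl

/-- terms are definable functions -/
theorem term_DF {D : (n : ℕ) → Set (Fin n → ℤ) → Prop} (hD : DS D) (α : ℝ) {γ : Type} (t : Lc.Term γ) :
    DF D (fun v : γ → ℤ => @Term.realize Lc ℤ (cStr α) γ v t) := by
  induction t with
  | var i => exact DF.var hD i
  | func f ts ih =>
    cases f with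
    | add => exact (DF.add hD (ih 0) (ih 1)).congr fun v => rfl

theorem formula_DG {D : (n : ℕ) → Set (Fin n → ℤ) → Prop} (hD : DS D) {α : ℝ} (hC : D 3 {v | Cyc α (v 0) (v 1) (v 2)})
    {γ : Type} {n : ℕ} (φ : Lc.BoundedFormula γ n) :
    DG D (fun u : γ ⊕ Fin n → ℤ => @BoundedFormula.Realize Lc ℤ (cStr α) γ n φ (u ∘ Sum.inl) (u ∘ Sum.inr)) := by
  induction φ with
  | falsum => exact DG.const hD False
  | equal t₁ t₂ =>
    refine (DG.eqt hD (term_DF hD α t₁) (term_DF hD α t₂)).congr fun v => ?_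
    simp only [BoundedFormula.Realize, Sum.elim_comp_inl_inr]
  | rel R ts =>
    cases R with
    | C =>
      refine (DG.subst hD hC (fun i v => @Term.realize Lc ℤ (cStr α) _ v (ts i)) fun i => term_DF hD α (ts i)).congr fun v => ?_
      change Cyc α _ _ _ ↔ Cyc α _ _ _
      simp only [Sum.elim_comp_inl_inr]
  | imp φ ψ ih₁ ih₂ => exact DG.imp hD ih₁ ih₂
  | @all m φ ih =>
    have h1 := (DG.reindex ih (re (γ := γ))).all hD
    refine h1.congr fun u => ?_
    have e : ∀ z, ext u z ∘ re = Sum.elim (u ∘ Sum.inl) (Fin.snoc (α := fun _ => ℤ) (u ∘ Sum.inr) z) := by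
      intro z
      have e1 : u = Sum.elim (u ∘ Sum.inl) (u ∘ Sum.inr) := by
        funext o; cases o <;> rfl
      conv_lhs => rw [e1]
      exact ext_re _ _ z
    simp only [e]
    rfl

theorem z8 : Z8 := by
  intro D α hD hC n s hs
  obtain ⟨φ, hφ⟩ := (@Set.definable_iff_exists_formula_sum ℤ Set.univ Lc (cStr α) (Fin n) s).1 hs
  have h1 := formula_DG hD hC φ
  have h2 := DG.substAll (γ := Fin n) hD h1
    (Sum.elim (Sum.elim (fun a _ => (a : ℤ)) (fun i v => v i)) (fun j => j.elim0)) (by
      rintro ((a | i) | j)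
      · exact DF.const hD _
      · exact DF.var hD i
      · exact j.elim0)
  have h3 := (DG_iff hD).1 h2
  convert h3 using 1
  rw [hφ]
  ext v
  rw [Set.mem_ofPred_eq, Set.mem_ofPred_eq]
  unfold Formula.Realize
  apply iff_of_eq
  congr 1
  · funext o
    rcases o with a | i <;> rfl
  · exact Subsingleton.elim _ _

end Pool.Agent.Q222.HZ
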