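import Pool.Agent.Q222.HZ.Circ
import Pool.Agent.H200Z.Lang

set_option autoImplicit false

/-!
Project H200Z, job Z9: sets definable in the structure are tame. Adapted from helper200's `tame_formula` (result MP_66c0d0_lc).
-/

namespace Pool.Agent.Q222.HZ

open Pool.Agent.H200Z Q200.CircData
open FirstOrder FirstOrder.Language

section Reduction

variable {ι : Type} {θ : ι → ℝ}

theorem evZ_mapDomain {β β' : Type} (e : β → β') (l : β →₀ ℤ) (u : β' → ℤ) :
    evZ (l.mapDomain e) u = evZ l (u ∘ e) := by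
  classical
  unfold evZ
  rw [Finsupp.sum_mapDomain_index (by simp) (by intros; ring)]
  rfl

theorem evF_mapDomain {β β' : Type} (i : ι) (e : β → β') (l : β →₀ ℤ) (u : β' → ℤ) :
    evF θ i (l.mapDomain e) u = evF θ i l (u ∘ e) := by
  classical
  unfold evF
  rw [Finsupp.sum_mapDomain_index (by simp) (by intros; push_cast; ring)]
  rfl

theorem tame_reindex {β β' X : Type} (e : β → β') {g : (β → ℤ) → X} (hg : Tame θ g) :
    Tame θ (fun u : β' → ℤ => g (u ∘ e)) := by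
  classical
  obtain ⟨D, hD⟩ := hg
  refine ⟨⟨D.N, D.hN, D.L.image (fun x => (x.1.mapDomain e, x.2)),
    D.F.image (fun x => (x.1.mapDomain e, x.2))⟩, fun v w h => hD _ _ ⟨?_, ?_, ?_⟩⟩
  · intro b
    exact h.1 (e b)
  · intro x hx
    have := h.2.1 _ (Finset.mem_image_of_mem _ hx)
    simp only [evZ_mapDomain] at this
    exact this
  · intro x hx
    have := h.2.2 _ (Finset.mem_image_of_mem _ hx)
    simp only [evF_mapDomain] at this
    exact this

theorem tame_all [Fintype ι] (hK : Kron θ) (hirr : ∀ i, Irrational (θ i)) {β : Type}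
    {P : (Option β → ℤ) → Prop} (hP : Tame θ P) :
    Tame θ (fun v : β → ℤ => ∀ z, P (ext v z)) := by
  obtain ⟨D, hD⟩ := hP
  obtain ⟨D', hD'⟩ := elim hK hirr D
  have key : ∀ v w, Same θ D' v w → (∀ z, P (ext v z)) → ∀ z, P (ext w z) := by
    intro v w h hv z
    obtain ⟨z', hz'⟩ := hD' w v h.symm z
    rw [hD _ _ hz']
    exact hv z'
  exact ⟨D', fun v w h => propext ⟨key v w h, key w v h.symm⟩⟩

/-- Comparison of `{x₁ α}` and `{x₂ α}`. -/
theorem tame_lt {β : Type} (j : ι) (l₁ l₂ : β →₀ ℤ) :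
    Tame θ (fun u : β → ℤ => Int.fract (((evZ l₁ u : ℤ) : ℝ) * θ j) <
      Int.fract (((evZ l₂ u : ℤ) : ℝ) * θ j)) := by
  classical
  have hfract : ∀ (l : β →₀ ℤ) (u : β → ℤ), Int.fract (((evZ l u : ℤ) : ℝ) * θ j) = Int.fract (evF θ j l u) := by
    intro l u
    rw [ev_identity θ j l u, Int.fract_intCast_add]
  have h := Tame.bind (θ := θ)
      (Finset.Icc (-ibnd l₁ 0) (ibnd l₁ 0) ×ˢ Finset.Icc (-ibnd l₂ 0) (ibnd l₂ 0))
      ((tame_floor (θ := θ) j l₁ 0).prod (tame_floor (θ := θ) j l₂ 0))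
      (fun v => Finset.mem_product.mpr ⟨floor_mem j _ _ v, floor_mem j _ _ v⟩)
      (g := fun n u => evF θ j (l₁ - l₂) u + (- n.1 + n.2) < 0)
      (fun n _ => tame_neg _ _ _)
  obtain ⟨D, hD⟩ := h
  refine ⟨D, fun v w hs => ?_⟩
  have := hD v w hs
  have e : ∀ u : β → ℤ, (Int.fract (((evZ l₁ u : ℤ) : ℝ) * θ j) < Int.fract (((evZ l₂ u : ℤ) : ℝ) * θ j)) =
      (evF θ j (l₁ - l₂) u + (-(⌊evF θ j l₁ u + 0⌋ : ℤ) + (⌊evF θ j l₂ u + 0⌋ : ℤ)) < 0) := by
    intro u
    rw [hfract, hfract, evF_sub, add_zero, add_zero]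
    unfold Int.fract
    apply propext
    constructor <;> intro h <;> linarith
  change (_ < _) = (_ < _)
  rw [e v, e w]
  exact this

theorem tame_cyc {β : Type} (j : ι) (l₁ l₂ l₃ : β →₀ ℤ) :
    Tame θ (fun u : β → ℤ => Cyc (θ j) (evZ l₁ u) (evZ l₂ u) (evZ l₃ u)) := by
  have h12 := tame_lt (θ := θ) j l₁ l₂
  have h23 := tame_lt (θ := θ) j l₂ l₃
  have h31 := tame_lt (θ := θ) j l₃ l₁
  exact ((h12.map₂ h23 And).map₂ ((h23.map₂ h31 And).map₂ (h31.map₂ h12 And) Or) Or)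

/-- Terms are linear forms. -/
theorem term_form (α : ℝ) {γ : Type} (t : Lc.Term γ) : ∃ l : γ →₀ ℤ, ∀ v : γ → ℤ,
    @Term.realize Lc ℤ (cStr α) γ v t = evZ l v := by
  induction t with
  | var i => exact ⟨Finsupp.single i 1, fun v => by simp [evZ]⟩
  | func f ts ih =>
    choose l hl using ih
    cases f with
    | add => exact ⟨l 0 + l 1, fun v => by rw [evZ_add, ← hl 0 v, ← hl 1 v]; rfl⟩

/-- The reindexing of the variables at a quantifier. -/
theorem tame_formula {α : ℝ} (hα : Irrational α)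
    {γ : Type} {n : ℕ} (φ : Lc.BoundedFormula γ n) :
    Tame (fun _ : Unit => α) (fun u : γ ⊕ Fin n → ℤ =>
      @BoundedFormula.Realize Lc ℤ (cStr α) γ n φ (u ∘ Sum.inl) (u ∘ Sum.inr)) := by
  induction φ with
  | falsum => exact Tame.const False
  | equal t₁ t₂ =>
    obtain ⟨l₁, h₁⟩ := term_form α t₁
    obtain ⟨l₂, h₂⟩ := term_form α t₂
    obtain ⟨D, hD⟩ := tame_eq (θ := fun _ : Unit => α) (l₁ - l₂) 0
    refine ⟨D, fun v w h => ?_⟩
    have := hD v w h
    simp only [evZ_sub, add_zero, sub_eq_zero] at this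
    simp only [BoundedFormula.Realize, h₁, h₂, Sum.elim_comp_inl_inr]
    exact this
  | rel R ts =>
    cases R with
    | C =>
      obtain ⟨l₀, h₀⟩ := term_form α (ts 0)
      obtain ⟨l₁, h₁⟩ := term_form α (ts 1)
      obtain ⟨l₂, h₂⟩ := term_form α (ts 2)
      obtain ⟨D, hD⟩ := tame_cyc (θ := fun _ : Unit => α) () l₀ l₁ l₂
      refine ⟨D, fun v w h => ?_⟩
      have := hD v w h
      change Cyc α _ _ _ = Cyc α _ _ _
      simp only [h₀, h₁, h₂, Sum.elim_comp_inl_inr]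
      exact this
  | imp φ ψ ih₁ ih₂ =>
    exact ih₁.map₂ ih₂ (fun a b => a → b)
  | @all m φ ih =>
    have h1 := tame_reindex (re (γ := γ)) ih
    have h2 := tame_all (kron1 hα) (fun _ => hα) h1
    obtain ⟨D, hD⟩ := h2
    refine ⟨D, fun v w h => ?_⟩
    have := hD v w h
    have e : ∀ (u : γ ⊕ Fin m → ℤ) (z : ℤ),
        @BoundedFormula.Realize Lc ℤ (cStr α) γ _ φ
          ((ext u z ∘ re) ∘ Sum.inl) ((ext u z ∘ re) ∘ Sum.inr) ↔
        @BoundedFormula.Realize Lc ℤ (cStr α) γ _ φ (u ∘ Sum.inl)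
          (Fin.snoc (α := fun _ => ℤ) (u ∘ Sum.inr) z) := by
      intro u z
      have e1 : u = Sum.elim (u ∘ Sum.inl) (u ∘ Sum.inr) := by
        funext o; cases o <;> rfl
      have e2 : ext u z ∘ re = Sum.elim (u ∘ Sum.inl)
          (Fin.snoc (α := fun _ => ℤ) (u ∘ Sum.inr) z) := by
        conv_lhs => rw [e1]
        exact ext_re _ _ z
      rw [e2]
      rfl
    simp only [e] at this
    exact this

/-- fixed parameters -/
theorem tame_fix {β A X : Type} {g : (β → ℤ) → X} (hg : Tame θ g) (f : β → A ⊕ ℤ) :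
    Tame θ (fun v : A → ℤ => g (fun b => Sum.elim v id (f b))) := by
  classical
  obtain ⟨D, hD⟩ := hg
  -- the part of a form
  let lA : (β →₀ ℤ) → (A →₀ ℤ) := fun l => ∑ b ∈ l.support, Sum.elim (fun a => Finsupp.single a (l b)) (fun _ => 0) (f b)
  let cZ : (β →₀ ℤ) → ℤ := fun l => ∑ b ∈ l.support, Sum.elim (fun _ => 0) (fun z => l b * z) (f b)
  let cF : ι → (β →₀ ℤ) → ℝ := fun i l => ∑ b ∈ l.support, Sum.elim (fun _ : A => (0 : ℝ)) (fun z : ℤ => (l b : ℝ) * Int.fract ((z : ℝ) * θ i)) (f b)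
  have evZ_sum : ∀ (S : Finset β) (m : β → (A →₀ ℤ)) (v : A → ℤ), evZ (∑ b ∈ S, m b) v = ∑ b ∈ S, evZ (m b) v := by
    intro S m v
    induction S using Finset.induction_on with
    | empty => simp [evZ]
    | insert a S ha ih => rw [Finset.sum_insert ha, Finset.sum_insert ha, evZ_add, ih]
  have evF_sum : ∀ (i : ι) (S : Finset β) (m : β → (A →₀ ℤ)) (v : A → ℤ), evF θ i (∑ b ∈ S, m b) v = ∑ b ∈ S, evF θ i (m b) v := by
    intro i S m v
    induction S using Finset.induction_on with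
    | empty => simp [evF]
    | insert a S ha ih => rw [Finset.sum_insert ha, Finset.sum_insert ha, evF_add, ih]
  have hZ : ∀ (l : β →₀ ℤ) (v : A → ℤ), evZ l (fun b => Sum.elim v id (f b)) = evZ (lA l) v + cZ l := by
    intro l v
    simp only [lA, cZ]
    rw [evZ_sum, ← Finset.sum_add_distrib]
    unfold evZ
    rw [Finsupp.sum]
    apply Finset.sum_congr rfl
    intro b _
    rcases hfb : f b with a | z
    · simp [hfb]
    · simp [hfb]
  have hF : ∀ (i : ι) (l : β →₀ ℤ) (v : A → ℤ), evF θ i l (fun b => Sum.elim v id (f b)) = evF θ i (lA l) v + cF i l := by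
    intro i l v
    simp only [lA, cF]
    rw [evF_sum, ← Finset.sum_add_distrib]
    unfold evF
    rw [Finsupp.sum]
    apply Finset.sum_congr rfl
    intro b _
    rcases hfb : f b with a | z
    · simp [hfb]
    · simp [hfb]
  refine ⟨⟨D.N, D.hN, D.L.image (fun x => (lA x.1, cZ x.1 + x.2)),
    D.F.image (fun x => (lA x.1, cF x.2.2 x.1 + x.2.1, x.2.2))⟩, fun v w h => hD _ _ ⟨?_, ?_, ?_⟩⟩
  · intro b
    rcases hfb : f b with a | z
    · simpa [hfb] using h.1 a
    · simp [hfb]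
  · intro x hx
    have := h.2.1 _ (Finset.mem_image_of_mem _ hx)
    rw [hZ, hZ, add_assoc, add_assoc]
    exact this
  · intro x hx
    have := h.2.2 _ (Finset.mem_image_of_mem _ hx)
    rw [hF, hF, add_assoc, add_assoc]
    exact this

end Reduction

theorem z9 : Z9 := by
  intro α hα n s hs
  obtain ⟨φ, hφ⟩ := (@Set.definable_iff_exists_formula_sum ℤ Set.univ Lc (cStr α) (Fin n) s).1 hs
  have h1 := tame_formula hα φ
  have h2 := tame_fix h1 (A := Fin n) (Sum.elim (Sum.elim (fun a => Sum.inr (a : ℤ)) (fun i => Sum.inl i)) (fun j => j.elim0))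
  obtain ⟨D, hD⟩ := h2
  refine ⟨D, fun v w hvw => ?_⟩
  have h3 := hD v w hvw
  have e : ∀ v : Fin n → ℤ, (v ∈ s) = (@BoundedFormula.Realize Lc ℤ (cStr α) _ 0 φ
      ((fun b => Sum.elim v id ((Sum.elim (Sum.elim (fun a => Sum.inr (a : ℤ)) (fun i => Sum.inl i)) (fun j => j.elim0) :
        ((Set.univ : Set ℤ) ⊕ Fin n) ⊕ Fin 0 → Fin n ⊕ ℤ) b)) ∘ Sum.inl)
      ((fun b => Sum.elim v id ((Sum.elim (Sum.elim (fun a => Sum.inr (a : ℤ)) (fun i => Sum.inl i)) (fun j => j.elim0) :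
        ((Set.univ : Set ℤ) ⊕ Fin n) ⊕ Fin 0 → Fin n ⊕ ℤ) b)) ∘ Sum.inr)) := by
    intro v
    rw [hφ, Set.mem_ofPred_eq]
    unfold Formula.Realize
    congr 1
    · funext o
      rcases o with a | i <;> rfl
    · exact Subsingleton.elim _ _
  change (v ∈ s) = (w ∈ s)
  rw [e v, e w]
  exact h3

end Pool.Agent.Q222.HZ
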