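import Pool.Agent.Q222.HZ.Circ

set_option autoImplicit false

/-!
Project H200Z, job Z2.
-/

namespace Pool.Agent.Q222.HZ

open Pool.Agent.H200Z Q200.CircData

theorem z2 : Z2 := by
  intro D β c l hD hβ hl hl4 hO
  obtain ⟨q1, n1, -, h1, h1'⟩ := dens1 hβ (a := c) (b := c + l / 4) (by linarith) ∅
  obtain ⟨q2, n2, -, h2, h2'⟩ := dens1 hβ (a := c + l - l / 4) (b := c + l) (by linarith) ∅
  obtain ⟨q, n, -, h3, h3'⟩ := dens1 hβ (a := l / 4) (b := l / 2) (by linarith) ∅
  obtain ⟨a1, ha1⟩ : ∃ a1 : ℝ, (q1 : ℝ) * β = c + a1 + n1 := ⟨q1 * β - c - n1, by ring⟩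
  obtain ⟨a, ha⟩ : ∃ a : ℝ, (q2 : ℝ) * β = c + l - a + n2 := ⟨c + l + n2 - q2 * β, by ring⟩
  obtain ⟨s, hs⟩ : ∃ s : ℝ, (q : ℝ) * β = s + n := ⟨q * β - n, by ring⟩
  have a10 : 0 < a1 := by linarith
  have a1l : a1 < l / 4 := by linarith
  have a0 : 0 < a := by linarith
  have al : a < l / 4 := by linarith
  have s0 : l / 4 < s := by linarith
  have sl : s < l / 2 := by linarith
  refine ⟨a, a0, by linarith, ?_⟩
  set O : Set ℤ := {y : ℤ | Int.fract ((y : ℝ) * β - c) < l} with hOdef
  -- the definable set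
  have hV : DG D (fun u : Option (Fin 1) → ℤ => (u none ∈ O ∧ u none + q ∈ O) ∧ ¬ (u none - u (some 0) ∈ O)) :=
    DG.and hD (DG.and hD (DG.memt hD hO (DF.var hD none)) (DG.memt hD hO (DF.add hD (DF.var hD none) (DF.const hD q))))
      (DG.not hD (DG.memt hD hO (DF.sub hD (DF.var hD none) (DF.var hD (some 0)))))
  have hW : DG D (fun v : Fin 1 → ℤ => (v 0 + q1 ∈ O ∧ v 0 + q2 ∈ O) ∧ ∃ y, (y ∈ O ∧ y + q ∈ O) ∧ ¬ (y - v 0 ∈ O)) :=
    DG.and hD (DG.and hD (DG.memt hD hO (DF.add hD (DF.var hD 0) (DF.const hD q1)))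
      (DG.memt hD hO (DF.add hD (DF.var hD 0) (DF.const hD q2)))) (hV.ex hD)
  refine D1_of hD hW fun v => ?_
  generalize v 0 = z
  have hx0 := Int.fract_nonneg ((z : ℝ) * β)
  have hx1 := Int.fract_lt_one ((z : ℝ) * β)
  have hx := Int.fract_add_floor ((z : ℝ) * β)
  change (_ ∧ _) ↔ 0 < Int.fract ((z : ℝ) * β) ∧ Int.fract ((z : ℝ) * β) < a
  set x := Int.fract ((z : ℝ) * β) with hxd
  set k := ⌊(z : ℝ) * β⌋ with hk
  constructor
  · rintro ⟨⟨w1, w2⟩, y, ⟨y1, y2⟩, y3⟩
    -- the element y
    have v0 := Int.fract_nonneg ((y : ℝ) * β - c)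
    have v1 : Int.fract ((y : ℝ) * β - c) < l := y1
    have hv := Int.fract_add_floor ((y : ℝ) * β - c)
    set w := Int.fract ((y : ℝ) * β - c) with hwd
    set j := ⌊(y : ℝ) * β - c⌋ with hj
    have y2' : w + s < l := by
      have e : Int.fract (((y + q : ℤ) : ℝ) * β - c) = w + s := fr_of (j + n) (by push_cast; linarith) (by linarith) (by linarith)
      have : Int.fract (((y + q : ℤ) : ℝ) * β - c) < l := y2
      rwa [e] at this
    have w1' : x < l - a1 ∨ 1 - a1 ≤ x := by
      by_contra hc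
      push Not at hc
      have e : Int.fract (((z + q1 : ℤ) : ℝ) * β - c) = x + a1 := fr_of (k + n1) (by push_cast; linarith) (by linarith) (by linarith)
      have : Int.fract (((z + q1 : ℤ) : ℝ) * β - c) < l := w1
      rw [e] at this
      linarith
    have w2' : x < a ∨ 1 - l + a ≤ x := by
      by_contra hc
      push Not at hc
      have e : Int.fract (((z + q2 : ℤ) : ℝ) * β - c) = x + l - a := fr_of (k + n2) (by push_cast; linarith) (by linarith) (by linarith)
      have : Int.fract (((z + q2 : ℤ) : ℝ) * β - c) < l := w2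
      rw [e] at this
      linarith
    rcases w1' with w1' | w1'
    · rcases w2' with w2' | w2'
      · refine ⟨?_, w2'⟩
        by_contra hc
        have x0 : x = 0 := by linarith
        apply y3
        change Int.fract (((y - z : ℤ) : ℝ) * β - c) < l
        have e : Int.fract (((y - z : ℤ) : ℝ) * β - c) = w := fr_of (j - k) (by push_cast; linarith) (by linarith) (by linarith)
        rw [e]
        exact v1
      · exfalso
        linarith
    · exfalso
      apply y3
      change Int.fract (((y - z : ℤ) : ℝ) * β - c) < l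
      have e : Int.fract (((y - z : ℤ) : ℝ) * β - c) = w - x + 1 := fr_of (j - k - 1) (by push_cast; linarith) (by linarith) (by linarith)
      rw [e]
      linarith
  · rintro ⟨x0, xa⟩
    refine ⟨⟨?_, ?_⟩, ?_⟩
    · change Int.fract (((z + q1 : ℤ) : ℝ) * β - c) < l
      rw [fr_of (u := x + a1) (k + n1) (by push_cast; linarith) (by linarith) (by linarith)]
      linarith
    · change Int.fract (((z + q2 : ℤ) : ℝ) * β - c) < l
      rw [fr_of (u := x + l - a) (k + n2) (by push_cast; linarith) (by linarith) (by linarith)]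
      linarith
    · obtain ⟨y, j, -, g1, g2⟩ := dens1 hβ (a := c) (b := c + x) (by linarith) ∅
      refine ⟨y, ⟨?_, ?_⟩, ?_⟩
      · change Int.fract ((y : ℝ) * β - c) < l
        rw [fr_of (u := y * β - j - c) j (by ring) (by linarith) (by linarith)]
        linarith
      · change Int.fract (((y + q : ℤ) : ℝ) * β - c) < l
        rw [fr_of (u := y * β - j - c + s) (j + n) (by push_cast; linarith) (by linarith) (by linarith)]
        linarith
      · change ¬ Int.fract (((y - z : ℤ) : ℝ) * β - c) < l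
        rw [fr_of (u := y * β - j - c - x + 1) (j - k - 1) (by push_cast; linarith) (by linarith) (by linarith)]
        linarith

end Pool.Agent.Q222.HZ
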