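import Pool.Agent.Q222.HZ.Circ

set_option autoImplicit false

/-!
Project H200Z, jobs Z3, Z4.
-/

namespace Pool.Agent.Q222.HZ

open Pool.Agent.H200Z Q200.CircData

theorem DG.iff {D : (n : ℕ) → Set (Fin n → ℤ) → Prop} {γ : Type} (hD : DS D) {P Q : (γ → ℤ) → Prop} (h : DG D P) (h' : DG D Q) :
    DG D (fun v => (P v ↔ Q v)) :=
  ((h.imp hD h').and hD (h'.imp hD h)).congr fun _ => iff_iff_implies_and_implies.symm

theorem same_cell {δ : ℝ} (hδ : 0 < δ) {k : ℕ} (hk : 1 ≤ (k + 1 : ℕ) * δ) {x y : ℝ} (x0 : 0 ≤ x) (x1 : x < 1) (y1 : y < 1)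
    (h : ∀ j ∈ Finset.range (k + 1), (x < j * δ ↔ y < j * δ)) : |y - x| < δ := by
  set j := ⌊x / δ⌋₊ with hj
  have h1 : (j : ℝ) * δ ≤ x := by
    have := Nat.floor_le (div_nonneg x0 hδ.le)
    rwa [le_div_iff₀ hδ] at this
  have h2 : x < ((j + 1 : ℕ) : ℝ) * δ := by
    have := Nat.lt_floor_add_one (x / δ)
    rw [div_lt_iff₀ hδ] at this
    push_cast
    exact this
  have hjk : j ≤ k := by
    by_contra hc
    push Not at hc
    have : ((k + 1 : ℕ) : ℝ) ≤ j := by exact_mod_cast hc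
    nlinarith
  have h3 : (j : ℝ) * δ ≤ y := by
    have := h j (Finset.mem_range.2 (by omega))
    by_contra hc
    push Not at hc
    have := this.2 hc
    linarith
  have h4 : y < ((j + 1 : ℕ) : ℝ) * δ := by
    rcases Nat.lt_or_ge j k with hlt | hge
    · exact (h (j + 1) (Finset.mem_range.2 (by omega))).1 h2
    · have : j = k := le_antisymm hjk hge
      rw [this]
      linarith
  push_cast at h2 h4
  rw [abs_lt]
  constructor <;> linarith

theorem z3 : Z3 := by
  intro D β a hD hβ ha ha4 hP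
  obtain ⟨d, n, -, h1, h1'⟩ := dens1 hβ (a := 0) (b := a) ha ∅
  obtain ⟨δ, hδ⟩ : ∃ δ : ℝ, (d : ℝ) * β = δ + n := ⟨d * β - n, by ring⟩
  have δ0 : 0 < δ := by linarith
  have δa : δ < a := by linarith
  set P : Set ℤ := {z : ℤ | 0 < Int.fract ((z : ℝ) * β) ∧ Int.fract ((z : ℝ) * β) < a} with hPd
  -- the initial segments
  have hI : ∀ j : ℕ, (j : ℝ) * δ < 1 → D1 D {x : ℤ | Int.fract ((x : ℝ) * β) < j * δ} := by
    intro j
    induction j with
    | zero =>
      intro _
      have h := D1_finset hD ∅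
      convert h using 2
      ext x
      simp [Int.fract_nonneg]
    | succ j ih =>
      intro hj
      push_cast at hj
      have hj' : (j : ℝ) * δ < 1 := by linarith
      have j0 : 0 ≤ (j : ℝ) * δ := by positivity
      have e1 : DG D (fun v : Fin 1 → ℤ => v 0 ∈ {x : ℤ | Int.fract ((x : ℝ) * β) < j * δ} ∨
          (v 0 = j * d ∨ (v 0 - j * d ∈ P ∧ (j + 1) * d - v 0 ∈ P))) :=
        DG.or hD (DG.memt hD (ih hj') (DF.var hD 0)) (DG.or hD (DG.eqt hD (DF.var hD 0) (DF.const hD _))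
          (DG.and hD (DG.memt hD hP (DF.sub hD (DF.var hD 0) (DF.const hD _))) (DG.memt hD hP (DF.sub hD (DF.const hD _) (DF.var hD 0)))))
      refine D1_of hD e1 fun v => ?_
      generalize v 0 = x
      have t0 := Int.fract_nonneg ((x : ℝ) * β)
      have t1 := Int.fract_lt_one ((x : ℝ) * β)
      have ht := Int.fract_add_floor ((x : ℝ) * β)
      change (Int.fract ((x : ℝ) * β) < j * δ ∨ _) ↔ Int.fract ((x : ℝ) * β) < ((j + 1 : ℕ) : ℝ) * δ
      set t := Int.fract ((x : ℝ) * β) with htd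
      set k := ⌊(x : ℝ) * β⌋ with hk
      have hjd : Int.fract (((j * d : ℤ) : ℝ) * β) = j * δ := fr_of (j * n) (by push_cast; linear_combination (j : ℝ) * hδ) j0 hj'
      push_cast
      constructor
      · rintro (h | h | ⟨⟨u1, u2⟩, u3, u4⟩)
        · linarith
        · have : t = j * δ := by
            rw [htd, h, hjd]
          rw [this]
          linarith
        · by_cases hc : t < j * δ
          · linarith
          · push Not at hc
            have g1 : Int.fract (((x - j * d : ℤ) : ℝ) * β) = t - j * δ :=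
              fr_of (k - j * n) (by push_cast; linear_combination -(j : ℝ) * hδ - ht) (by linarith) (by linarith)
            rw [g1] at u1 u2
            by_contra hc2
            push Not at hc2
            rcases eq_or_lt_of_le hc2 with hc3 | hc3
            · have g2 : Int.fract ((((j + 1) * d - x : ℤ) : ℝ) * β) = 0 :=
                fr_of ((j + 1) * n - k) (by push_cast; linear_combination ((j : ℝ) + 1) * hδ + ht + hc3) le_rfl one_pos
              rw [g2] at u3
              exact lt_irrefl _ u3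
            · have g2 : Int.fract ((((j + 1) * d - x : ℤ) : ℝ) * β) = (j + 1) * δ - t + 1 :=
                fr_of ((j + 1) * n - k - 1) (by push_cast; linear_combination ((j : ℝ) + 1) * hδ + ht) (by linarith) (by linarith)
              rw [g2] at u4
              linarith
      · intro h
        by_cases hc : t < j * δ
        · exact Or.inl hc
        · right
          push Not at hc
          rcases eq_or_lt_of_le hc with hc2 | hc2
          · left
            apply inj' hβ
            rw [hjd]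
            exact hc2.symm
          · right
            have g1 : Int.fract (((x - j * d : ℤ) : ℝ) * β) = t - j * δ :=
              fr_of (k - j * n) (by push_cast; linear_combination -(j : ℝ) * hδ - ht) (by linarith) (by linarith)
            have g2 : Int.fract ((((j + 1) * d - x : ℤ) : ℝ) * β) = (j + 1) * δ - t :=
              fr_of ((j + 1) * n - k) (by push_cast; linear_combination ((j : ℝ) + 1) * hδ + ht) (by linarith) (by linarith)
            refine ⟨?_, ?_⟩
            · change 0 < Int.fract (((x - j * d : ℤ) : ℝ) * β) ∧ Int.fract (((x - j * d : ℤ) : ℝ) * β) < a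
              rw [g1]
              constructor <;> linarith
            · change 0 < Int.fract ((((j + 1) * d - x : ℤ) : ℝ) * β) ∧ Int.fract ((((j + 1) * d - x : ℤ) : ℝ) * β) < a
              rw [g2]
              constructor <;> linarith
  -- the number of cells
  obtain ⟨k, hk1, hk2⟩ : ∃ k : ℕ, (k : ℝ) * δ < 1 ∧ 1 ≤ (k + 1 : ℕ) * δ := by
    have h0 : 0 < ⌈1 / δ⌉₊ := Nat.ceil_pos.2 (by positivity)
    refine ⟨⌈1 / δ⌉₊ - 1, ?_, ?_⟩
    · have : ⌈1 / δ⌉₊ - 1 < ⌈1 / δ⌉₊ := by omega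
      rw [Nat.lt_ceil, lt_div_iff₀ δ0] at this
      exact this
    · have e : ⌈1 / δ⌉₊ - 1 + 1 = ⌈1 / δ⌉₊ := by omega
      rw [e, ← div_le_iff₀ δ0]
      exact Nat.le_ceil _
  have hI' : ∀ j ∈ Finset.range (k + 1), D1 D {x : ℤ | Int.fract ((x : ℝ) * β) < j * δ} := by
    intro j hj
    apply hI
    have : (j : ℝ) ≤ k := by exact_mod_cast Nat.lt_succ_iff.1 (Finset.mem_range.1 hj)
    nlinarith
  have hLt : ∀ i i' : Fin 3, DG D (fun v : Fin 3 → ℤ => Int.fract ((v i : ℝ) * β) < Int.fract ((v i' : ℝ) * β)) := by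
    intro i i'
    have e1 : DG D (fun v : Fin 3 → ℤ =>
        (∃ j ∈ Finset.range (k + 1), v i ∈ {x : ℤ | Int.fract ((x : ℝ) * β) < j * δ} ∧ ¬ v i' ∈ {x : ℤ | Int.fract ((x : ℝ) * β) < j * δ}) ∨
        ((∀ j ∈ Finset.range (k + 1), (v i ∈ {x : ℤ | Int.fract ((x : ℝ) * β) < j * δ} ↔ v i' ∈ {x : ℤ | Int.fract ((x : ℝ) * β) < j * δ})) ∧
          v i' - v i ∈ P)) :=
      DG.or hD (DG.finsetOr hD _ (fun (j : ℕ) v => v i ∈ {x : ℤ | Int.fract ((x : ℝ) * β) < j * δ} ∧ ¬ v i' ∈ {x : ℤ | Int.fract ((x : ℝ) * β) < j * δ})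
          fun j hj => DG.and hD (DG.memt hD (hI' j hj) (DF.var hD _)) (DG.not hD (DG.memt hD (hI' j hj) (DF.var hD _))))
        (DG.and hD (DG.finsetAnd hD _ (fun (j : ℕ) v => (v i ∈ {x : ℤ | Int.fract ((x : ℝ) * β) < j * δ} ↔ v i' ∈ {x : ℤ | Int.fract ((x : ℝ) * β) < j * δ}))
          fun j hj => DG.iff hD (DG.memt hD (hI' j hj) (DF.var hD _)) (DG.memt hD (hI' j hj) (DF.var hD _)))
          (DG.memt hD hP (DF.sub hD (DF.var hD _) (DF.var hD _))))
    refine e1.congr fun v => ?_
    generalize v i = x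
    generalize v i' = y
    have x0 := Int.fract_nonneg ((x : ℝ) * β)
    have x1 := Int.fract_lt_one ((x : ℝ) * β)
    have hx := Int.fract_add_floor ((x : ℝ) * β)
    have y0 := Int.fract_nonneg ((y : ℝ) * β)
    have y1 := Int.fract_lt_one ((y : ℝ) * β)
    have hy := Int.fract_add_floor ((y : ℝ) * β)
    constructor
    · rintro (⟨j, hj, h1, h2⟩ | ⟨h1, h2, h3⟩)
      · have h1' : Int.fract ((x : ℝ) * β) < j * δ := h1
        have h2' : ¬ Int.fract ((y : ℝ) * β) < j * δ := h2
        push Not at h2'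
        exact h1'.trans_le h2'
      · have h4 := same_cell δ0 hk2 x0 x1 y1 h1
        by_contra hc
        push Not at hc
        rw [abs_lt] at h4
        rcases eq_or_lt_of_le hc with hc2 | hc2
        · have g : Int.fract (((y - x : ℤ) : ℝ) * β) = 0 :=
            fr_of (⌊(y : ℝ) * β⌋ - ⌊(x : ℝ) * β⌋) (by push_cast; linear_combination hx - hy + hc2) le_rfl one_pos
          rw [g] at h2
          exact lt_irrefl _ h2
        · have g : Int.fract (((y - x : ℤ) : ℝ) * β) = Int.fract ((y : ℝ) * β) - Int.fract ((x : ℝ) * β) + 1 :=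
            fr_of (⌊(y : ℝ) * β⌋ - ⌊(x : ℝ) * β⌋ - 1) (by push_cast; linear_combination hx - hy) (by linarith) (by linarith)
          rw [g] at h3
          linarith
    · intro h
      by_cases hc : ∃ j ∈ Finset.range (k + 1), x ∈ {x : ℤ | Int.fract ((x : ℝ) * β) < j * δ} ∧ ¬ y ∈ {x : ℤ | Int.fract ((x : ℝ) * β) < j * δ}
      · exact Or.inl hc
      · right
        push Not at hc
        have h1 : ∀ j ∈ Finset.range (k + 1), (x ∈ {x : ℤ | Int.fract ((x : ℝ) * β) < j * δ} ↔ y ∈ {x : ℤ | Int.fract ((x : ℝ) * β) < j * δ}) := by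
          intro j hj
          refine ⟨hc j hj, fun hy' => ?_⟩
          have hy2 : Int.fract ((y : ℝ) * β) < j * δ := hy'
          change Int.fract ((x : ℝ) * β) < j * δ
          linarith
        refine ⟨h1, ?_⟩
        have h4 := same_cell δ0 hk2 x0 x1 y1 h1
        rw [abs_lt] at h4
        change 0 < Int.fract (((y - x : ℤ) : ℝ) * β) ∧ Int.fract (((y - x : ℤ) : ℝ) * β) < a
        have g : Int.fract (((y - x : ℤ) : ℝ) * β) = Int.fract ((y : ℝ) * β) - Int.fract ((x : ℝ) * β) :=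
            fr_of (⌊(y : ℝ) * β⌋ - ⌊(x : ℝ) * β⌋) (by push_cast; linear_combination hx - hy) (by linarith) (by linarith)
        rw [g]
        constructor <;> linarith
  have hC : DG D (fun v : Fin 3 → ℤ => Cyc β (v 0) (v 1) (v 2)) :=
    DG.or hD (DG.and hD (hLt 0 1) (hLt 1 2)) (DG.or hD (DG.and hD (hLt 1 2) (hLt 2 0)) (DG.and hD (hLt 2 0) (hLt 0 1)))
  exact (DG_iff hD).1 hC

theorem cyc_iff (β : ℝ) (a b c : ℤ) : Cyc β a b c ↔
    0 < Int.fract (((b - a : ℤ) : ℝ) * β) ∧ Int.fract (((b - a : ℤ) : ℝ) * β) < Int.fract (((c - a : ℤ) : ℝ) * β) := by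
  have key : ∀ x y : ℤ, (Int.fract ((x : ℝ) * β) ≤ Int.fract ((y : ℝ) * β) ∧
      Int.fract (((y - x : ℤ) : ℝ) * β) = Int.fract ((y : ℝ) * β) - Int.fract ((x : ℝ) * β)) ∨
      (Int.fract ((y : ℝ) * β) < Int.fract ((x : ℝ) * β) ∧
      Int.fract (((y - x : ℤ) : ℝ) * β) = Int.fract ((y : ℝ) * β) - Int.fract ((x : ℝ) * β) + 1) := by
    intro x y
    have x0 := Int.fract_nonneg ((x : ℝ) * β)
    have x1 := Int.fract_lt_one ((x : ℝ) * β)
    have hx := Int.fract_add_floor ((x : ℝ) * β)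
    have y0 := Int.fract_nonneg ((y : ℝ) * β)
    have y1 := Int.fract_lt_one ((y : ℝ) * β)
    have hy := Int.fract_add_floor ((y : ℝ) * β)
    rcases le_or_gt (Int.fract ((x : ℝ) * β)) (Int.fract ((y : ℝ) * β)) with h | h
    · left
      exact ⟨h, fr_of (⌊(y : ℝ) * β⌋ - ⌊(x : ℝ) * β⌋) (by push_cast; linear_combination hx - hy) (by linarith) (by linarith)⟩
    · right
      exact ⟨h, fr_of (⌊(y : ℝ) * β⌋ - ⌊(x : ℝ) * β⌋ - 1) (by push_cast; linear_combination hx - hy) (by linarith) (by linarith)⟩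
  have a0 := Int.fract_nonneg ((a : ℝ) * β)
  have a1 := Int.fract_lt_one ((a : ℝ) * β)
  have b0 := Int.fract_nonneg ((b : ℝ) * β)
  have b1 := Int.fract_lt_one ((b : ℝ) * β)
  have c0 := Int.fract_nonneg ((c : ℝ) * β)
  have c1 := Int.fract_lt_one ((c : ℝ) * β)
  unfold Cyc
  rcases key a b with ⟨h1, h2⟩ | ⟨h1, h2⟩ <;> rcases key a c with ⟨h3, h4⟩ | ⟨h3, h4⟩ <;> rw [h2, h4] <;>
    set A := Int.fract ((a : ℝ) * β) <;> set B := Int.fract ((b : ℝ) * β) <;> set C := Int.fract ((c : ℝ) * β)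
  · constructor
    · rintro (⟨u, v⟩ | ⟨u, v⟩ | ⟨u, v⟩)
      · constructor <;> linarith
      · exfalso; linarith
      · exfalso; linarith
    · rintro ⟨u, v⟩
      left
      constructor <;> linarith
  · constructor
    · rintro (⟨u, v⟩ | ⟨u, v⟩ | ⟨u, v⟩)
      · exfalso; linarith
      · exfalso; linarith
      · constructor <;> linarith
    · rintro ⟨u, v⟩
      right; right
      constructor <;> linarith
  · constructor
    · rintro (⟨u, v⟩ | ⟨u, v⟩ | ⟨u, v⟩)
      · exfalso; linarith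
      · exfalso; linarith
      · exfalso; linarith
    · rintro ⟨u, v⟩
      exfalso; linarith
  · constructor
    · rintro (⟨u, v⟩ | ⟨u, v⟩ | ⟨u, v⟩)
      · exfalso; linarith
      · constructor <;> linarith
      · exfalso; linarith
    · rintro ⟨u, v⟩
      right; left
      constructor <;> linarith

theorem cyc_arc {β : ℝ} {p q n n' : ℤ} {P Q : ℝ} (hp : (p : ℝ) * β = P + n) (hq : (q : ℝ) * β = Q + n') (h1 : P < Q) (h2 : Q < P + 1) (w : ℤ) :
    Cyc β p w q ↔ ∃ k : ℤ, P < (w : ℝ) * β - k ∧ (w : ℝ) * β - k < Q := by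
  rw [cyc_iff]
  have e : Int.fract (((q - p : ℤ) : ℝ) * β) = Q - P := fr_of (n' - n) (by push_cast; linear_combination hq - hp) (by linarith) (by linarith)
  rw [e]
  constructor
  · rintro ⟨u, v⟩
    have hw := Int.fract_add_floor (((w - p : ℤ) : ℝ) * β)
    refine ⟨⌊((w - p : ℤ) : ℝ) * β⌋ + n, ?_, ?_⟩
    · push_cast at hw ⊢
      push_cast at u
      linarith
    · push_cast at hw ⊢
      push_cast at v
      linarith
  · rintro ⟨k, u, v⟩
    have g : Int.fract (((w - p : ℤ) : ℝ) * β) = w * β - k - P :=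
      fr_of (k - n) (by push_cast; linear_combination -hp) (by linarith) (by linarith)
    rw [g]
    constructor <;> linarith

theorem z4 : Z4 := by
  intro D α m hD hα hm hC
  have hm' : (0 : ℝ) < m := by exact_mod_cast hm
  have hm1 : (1 : ℝ) ≤ m := by exact_mod_cast hm
  have hβ : Irrational ((m : ℝ) * α) := hα.natCast_mul hm.ne'
  set β : ℝ := (m : ℝ) * α with hβd
  obtain ⟨e, n, -, h1, h1'⟩ := dens1 hβ (a := 0) (b := 1 / 16) (by norm_num) ∅
  obtain ⟨ε, hε⟩ : ∃ ε : ℝ, (e : ℝ) * β = ε + n := ⟨e * β - n, by ring⟩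
  have ε0 : 0 < ε := by linarith
  have ε1 : ε < 1 / 16 := by linarith
  obtain ⟨a, ha⟩ : ∃ a : ℝ, m * a = ε := ⟨ε / m, by field_simp⟩
  have a0 : 0 < a := by
    by_contra hc
    push Not at hc
    nlinarith
  have a1 : a < 1 / 16 := by nlinarith
  have hp : ∀ i : ℕ, ∃ p q n n' : ℤ, (-(i * α) - 1 / (4 * m) < (p : ℝ) * β - n ∧ (p : ℝ) * β - n < -(i * α) - a) ∧
      (-(i * α) + 2 * a < (q : ℝ) * β - n' ∧ (q : ℝ) * β - n' < -(i * α) + 1 / (4 * m)) := by
    intro i
    have g : 2 * a < 1 / (4 * m) := by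
      rw [lt_div_iff₀ (by positivity)]
      nlinarith
    obtain ⟨p, n, -, g1, g2⟩ := dens1 hβ (a := -(i * α) - 1 / (4 * m)) (b := -(i * α) - a) (by linarith) ∅
    obtain ⟨q, n', -, g3, g4⟩ := dens1 hβ (a := -(i * α) + 2 * a) (b := -(i * α) + 1 / (4 * m)) (by linarith) ∅
    exact ⟨p, q, n, n', ⟨g1, g2⟩, g3, g4⟩
  choose p q n1 n2 hp hq using hp
  have hm4 : 1 / (4 * (m : ℝ)) ≤ 1 / 4 := by
    apply div_le_div_of_nonneg_left (by norm_num) (by norm_num)
    linarith
  -- membership in the arcs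
  have hG : ∀ (i : ℕ) (w : ℤ), Cyc β (p i) w (q i) ↔ ∃ k : ℤ, (p i : ℝ) * β - n1 i < (w : ℝ) * β - k ∧ (w : ℝ) * β - k < (q i : ℝ) * β - n2 i := by
    intro i w
    have g1 := hp i
    have g2 := hq i
    exact cyc_arc (n := n1 i) (n' := n2 i) (by ring) (by ring) (by linarith [g1.2, g2.1]) (by linarith [g1.1, g2.2]) w
  have hE : ∀ w : ℤ, Cyc β 0 w e ↔ ∃ k : ℤ, (0 : ℝ) < (w : ℝ) * β - k ∧ (w : ℝ) * β - k < ε :=
    fun w => cyc_arc (n := 0) (n' := n) (by simp) hε ε0 (by linarith) w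
  refine ⟨a, a0, by linarith, ?_⟩
  have hA : DG D (fun v : Fin 1 → ℤ => (∃ i ∈ Finset.range m, ∃ w : ℤ, v 0 = m * w + i ∧ Cyc β (p i) w (q i)) ∧ Cyc β 0 (v 0) e) := by
    refine DG.and hD (DG.finsetOr hD _ (fun (i : ℕ) v => ∃ w : ℤ, v 0 = m * w + i ∧ Cyc β (p i) w (q i)) fun i hi => ?_) ?_
    · have e1 : DG D (fun u : Option (Fin 1) → ℤ => u (some 0) = m * u none + i ∧ Cyc β (p i) (u none) (q i)) :=
        DG.and hD (DG.eqt hD (DF.var hD _) (DF.add hD (DF.zmul hD _ (DF.var hD _)) (DF.const hD _)))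
          ((DG.subst hD hC ![fun _ => p i, fun u => u none, fun _ => q i] (by
            intro j
            fin_cases j
            · exact DF.const hD _
            · exact DF.var hD _
            · exact DF.const hD _)).congr fun v => Iff.rfl)
      exact e1.ex hD
    · exact (DG.subst hD hC ![fun _ => 0, fun u => u 0, fun _ => e] (by
            intro j
            fin_cases j
            · exact DF.const hD _
            · exact DF.var hD _
            · exact DF.const hD _)).congr fun v => Iff.rfl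
  refine D1_of hD hA fun v => ?_
  generalize v 0 = z
  change (_ ∧ _) ↔ 0 < Int.fract ((z : ℝ) * α) ∧ Int.fract ((z : ℝ) * α) < a
  rw [hE]
  constructor
  · rintro ⟨⟨i, hi, w, rfl, hw⟩, k', u1, u2⟩
    obtain ⟨k, u3, u4⟩ := (hG i w).1 hw
    have g1 := (hp i).1
    have g2 := (hq i).2
    set x : ℝ := w * β + i * α - k with hx
    have x1 : -(1 / (4 * m)) < x := by linarith
    have x2 : x < 1 / (4 * m) := by linarith
    have y1 : -(1 / 4) < m * x := by
      have h := mul_lt_mul_of_pos_left x1 hm'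
      have e : (m : ℝ) * (-(1 / (4 * m))) = -(1 / 4) := by field_simp
      linarith
    have y2 : m * x < 1 / 4 := by
      have h := mul_lt_mul_of_pos_left x2 hm'
      have e : (m : ℝ) * (1 / (4 * m)) = 1 / 4 := by field_simp
      linarith
    have e2 : (((m * w + i : ℤ) : ℝ)) * β - k' = m * x + ((m * k - k' : ℤ) : ℝ) := by
      rw [hx, hβd]
      push_cast
      ring
    rw [e2] at u1 u2
    have j1 : ((m * k - k' : ℤ) : ℝ) < 1 := by linarith
    have j2 : (-1 : ℝ) < ((m * k - k' : ℤ) : ℝ) := by linarith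
    have j3 : (m * k - k' : ℤ) < 1 := by exact_mod_cast j1
    have j4 : -1 < (m * k - k' : ℤ) := by exact_mod_cast j2
    have j5 : (m * k - k' : ℤ) = 0 := by omega
    rw [j5, Int.cast_zero, add_zero] at u1 u2
    have x3 : 0 < x := by
      by_contra hc
      push Not at hc
      nlinarith
    have x4 : x < a := by
      rw [← ha] at u2
      exact lt_of_mul_lt_mul_left u2 hm'.le
    have g : Int.fract (((m * w + i : ℤ) : ℝ) * α) = x := fr_of k (by rw [hx, hβd]; push_cast; ring) x3.le (by linarith)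
    rw [g]
    exact ⟨x3, x4⟩
  · rintro ⟨x0, xa⟩
    have hx := Int.fract_add_floor ((z : ℝ) * α)
    set x := Int.fract ((z : ℝ) * α) with hxd
    set k := ⌊(z : ℝ) * α⌋ with hk
    refine ⟨⟨(z % m).toNat, ?_, z / m, ?_, ?_⟩, m * k, ?_, ?_⟩
    · rw [Finset.mem_range]
      have h1 := Int.emod_nonneg z (show (m : ℤ) ≠ 0 by exact_mod_cast hm.ne')
      have h2 := Int.emod_lt_of_pos z (show 0 < (m : ℤ) by exact_mod_cast hm)
      omega
    · have h1 := Int.emod_nonneg z (show (m : ℤ) ≠ 0 by exact_mod_cast hm.ne')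
      rw [Int.toNat_of_nonneg h1]
      exact (Int.mul_ediv_add_emod z m).symm
    · have h1 := Int.emod_nonneg z (show (m : ℤ) ≠ 0 by exact_mod_cast hm.ne')
      have h2 : (((z % m).toNat : ℤ) : ℝ) = ((z % m : ℤ) : ℝ) := by rw [Int.toNat_of_nonneg h1]
      have h2' : (((z % m).toNat : ℕ) : ℝ) = ((z % m : ℤ) : ℝ) := by rw [← h2]; norm_cast
      have h3 : (z : ℝ) = m * ((z / m : ℤ) : ℝ) + ((z % m : ℤ) : ℝ) := by
        have := Int.mul_ediv_add_emod z m
        exact_mod_cast this.symm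
      rw [hG]
      have g1 := (hp (z % m).toNat).2
      have g2 := (hq (z % m).toNat).1
      rw [h2'] at g1 g2
      have e3 : ((z / m : ℤ) : ℝ) * β - k = x - ((z % m : ℤ) : ℝ) * α := by
        rw [hβd]
        linear_combination -hx - α * h3
      refine ⟨k, ?_, ?_⟩
      · rw [e3]
        linarith
      · rw [e3]
        linarith
    · have e4 : (z : ℝ) * β - ((m * k : ℤ) : ℝ) = m * x := by
        rw [hβd]
        push_cast
        linear_combination -(m : ℝ) * hx
      rw [e4]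
      positivity
    · have e4 : (z : ℝ) * β - ((m * k : ℤ) : ℝ) = m * x := by
        rw [hβd]
        push_cast
        linear_combination -(m : ℝ) * hx
      rw [e4, ← ha]
      exact mul_lt_mul_of_pos_left xa hm'

end Pool.Agent.Q222.HZ
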