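import Pool.Agent.Q222.HZ.Circ

set_option autoImplicit false

/-!
Project H200Z, job Z5: tame sets of integers.
-/

namespace Pool.Agent.Q222.HZ

open Pool.Agent.H200Z Q200.CircData

/-- outside of a finite set, `g y` depends only on the position of `{y α}` with respect to finitely many numbers -/
def PW {X : Type} (α : ℝ) (g : ℤ → X) : Prop :=
  ∃ (C : Finset ℝ) (Z : Finset ℤ), ∀ x ∉ Z, ∀ y ∉ Z,
    (∀ c ∈ C, c < Int.fract ((x : ℝ) * α) ↔ c < Int.fract ((y : ℝ) * α)) → g x = g y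

theorem PW.prod {X Y : Type} {α : ℝ} {g : ℤ → X} {h : ℤ → Y} (hg : PW α g) (hh : PW α h) : PW α (fun y => (g y, h y)) := by
  classical
  obtain ⟨C, Z, h1⟩ := hg
  obtain ⟨C', Z', h2⟩ := hh
  refine ⟨C ∪ C', Z ∪ Z', fun x hx y hy hxy => ?_⟩
  rw [Finset.mem_union, not_or] at hx hy
  exact Prod.ext (h1 x hx.1 y hy.1 fun c hc => hxy c (Finset.mem_union_left _ hc)) (h2 x hx.2 y hy.2 fun c hc => hxy c (Finset.mem_union_right _ hc))

theorem PW.map {X Y : Type} {α : ℝ} {g : ℤ → X} (hg : PW α g) (f : X → Y) : PW α (fun y => f (g y)) := by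
  obtain ⟨C, Z, h1⟩ := hg
  exact ⟨C, Z, fun x hx y hy h => congrArg f (h1 x hx y hy h)⟩

theorem PW.family {X κ : Type} {α : ℝ} (S : Finset κ) {g : κ → ℤ → X} (hg : ∀ k ∈ S, PW α (g k)) :
    ∃ (C : Finset ℝ) (Z : Finset ℤ), ∀ k ∈ S, ∀ x ∉ Z, ∀ y ∉ Z,
    (∀ c ∈ C, c < Int.fract ((x : ℝ) * α) ↔ c < Int.fract ((y : ℝ) * α)) → g k x = g k y := by
  classical
  induction S using Finset.induction_on with
  | empty => exact ⟨∅, ∅, by simp⟩
  | insert a S _ ih =>
    obtain ⟨C, Z, h1⟩ := ih fun k hk => hg k (Finset.mem_insert_of_mem hk)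
    obtain ⟨C', Z', h2⟩ := hg a (Finset.mem_insert_self _ _)
    refine ⟨C ∪ C', Z ∪ Z', fun k hk x hx y hy h => ?_⟩
    rw [Finset.mem_union, not_or] at hx hy
    rcases Finset.mem_insert.1 hk with rfl | hk
    · exact h2 x hx.2 y hy.2 fun c hc => h c (Finset.mem_union_right _ hc)
    · exact h1 k hk x hx.1 y hy.1 fun c hc => h c (Finset.mem_union_left _ hc)

theorem PW.bind {X κ : Type} {α : ℝ} (S : Finset κ) {k : ℤ → κ} (hk : PW α k) (hkS : ∀ y, k y ∈ S) {g : κ → ℤ → X}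
    (hg : ∀ k ∈ S, PW α (g k)) : PW α (fun y => g (k y) y) := by
  classical
  obtain ⟨C, Z, h1⟩ := hk
  obtain ⟨C', Z', h2⟩ := PW.family S hg
  refine ⟨C ∪ C', Z ∪ Z', fun x hx y hy h => ?_⟩
  rw [Finset.mem_union, not_or] at hx hy
  change g (k x) x = g (k y) y
  rw [h1 x hx.1 y hy.1 fun c hc => h c (Finset.mem_union_left _ hc)]
  exact h2 _ (hkS y) x hx.2 y hy.2 fun c hc => h c (Finset.mem_union_right _ hc)

theorem PW.lt (α c : ℝ) : PW α (fun y : ℤ => c < Int.fract ((y : ℝ) * α)) :=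
  ⟨{c}, ∅, fun _ _ _ _ h => propext (h c (Finset.mem_singleton_self c))⟩

theorem PW.gt {α : ℝ} (hα : Irrational α) (c : ℝ) : PW α (fun y : ℤ => Int.fract ((y : ℝ) * α) < c) := by
  have hf := fin_eq hα c 0
  refine ⟨{c}, hf.toFinset, fun x hx y hy h => ?_⟩
  rw [Set.Finite.mem_toFinset] at hx hy
  have hx' : Int.fract ((x : ℝ) * α) ≠ c := fun h' => hx (by rw [Set.mem_ofPred_eq, sub_zero]; exact h')
  have hy' : Int.fract ((y : ℝ) * α) ≠ c := fun h' => hy (by rw [Set.mem_ofPred_eq, sub_zero]; exact h')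
  have h1 := h c (Finset.mem_singleton_self c)
  apply propext
  constructor
  · intro h2
    by_contra h3
    push Not at h3
    have := h1.2 (lt_of_le_of_ne h3 hy'.symm)
    linarith
  · intro h2
    by_contra h3
    push Not at h3
    have := h1.1 (lt_of_le_of_ne h3 hx'.symm)
    linarith

/-- positive affine functions of the fractional part -/
theorem PW.aff {α : ℝ} (hα : Irrational α) (l c : ℝ) : PW α (fun y : ℤ => 0 < l * Int.fract ((y : ℝ) * α) + c) := by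
  rcases lt_trichotomy l 0 with h | h | h
  · have h1 := PW.gt hα (-c / l)
    obtain ⟨C, Z, h2⟩ := h1
    refine ⟨C, Z, fun x hx y hy hxy => ?_⟩
    have e : ∀ t : ℝ, (0 < l * t + c) = (t < -c / l) := by
      intro t
      apply propext
      rw [lt_div_iff_of_neg h]
      constructor <;> intro h' <;> linarith
    change (0 < l * Int.fract ((x : ℝ) * α) + c) = (0 < l * Int.fract ((y : ℝ) * α) + c)
    rw [e, e]
    exact h2 x hx y hy hxy
  · refine ⟨∅, ∅, fun x _ y _ _ => ?_⟩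
    change (0 < l * Int.fract ((x : ℝ) * α) + c) = (0 < l * Int.fract ((y : ℝ) * α) + c)
    rw [h, zero_mul, zero_mul]
  · have h1 := PW.lt α (-c / l)
    obtain ⟨C, Z, h2⟩ := h1
    refine ⟨C, Z, fun x hx y hy hxy => ?_⟩
    have e : ∀ t : ℝ, (0 < l * t + c) = (-c / l < t) := by
      intro t
      apply propext
      rw [div_lt_iff₀ h]
      constructor <;> intro h' <;> linarith
    change (0 < l * Int.fract ((x : ℝ) * α) + c) = (0 < l * Int.fract ((y : ℝ) * α) + c)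
    rw [e, e]
    exact h2 x hx y hy hxy

theorem PW.aff' {α : ℝ} (hα : Irrational α) (l c : ℝ) : PW α (fun y : ℤ => l * Int.fract ((y : ℝ) * α) + c < 0) := by
  obtain ⟨C, Z, h⟩ := PW.aff hα (-l) (-c)
  refine ⟨C, Z, fun x hx y hy hxy => ?_⟩
  have e : ∀ t : ℝ, (l * t + c < 0) = (0 < -l * t + -c) := by
    intro t
    apply propext
    constructor <;> intro h' <;> linarith
  change (l * Int.fract ((x : ℝ) * α) + c < 0) = (l * Int.fract ((y : ℝ) * α) + c < 0)
  rw [e, e]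
  exact h x hx y hy hxy

theorem PW.floor {α : ℝ} (hα : Irrational α) (N : ℕ) (c : ℝ) : PW α (fun y : ℤ => ⌊(N : ℝ) * Int.fract ((y : ℝ) * α) + c⌋) := by
  obtain ⟨C, Z, h⟩ := PW.family (Finset.Icc ⌊c⌋ (⌊c⌋ + N + 1)) (α := α)
    (g := fun (k : ℤ) (y : ℤ) => (N : ℝ) * Int.fract ((y : ℝ) * α) + (c - k) < 0) fun k _ => PW.aff' hα N (c - k)
  refine ⟨C, Z, ?_⟩
  have key : ∀ x ∉ Z, ∀ y ∉ Z, (∀ c ∈ C, c < Int.fract ((x : ℝ) * α) ↔ c < Int.fract ((y : ℝ) * α)) →
      ⌊(N : ℝ) * Int.fract ((x : ℝ) * α) + c⌋ ≤ ⌊(N : ℝ) * Int.fract ((y : ℝ) * α) + c⌋ := by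
    intro x hx y hy hxy
    rw [Int.le_floor]
    by_contra hc
    have x0 := Int.fract_nonneg ((x : ℝ) * α)
    have x1 := Int.fract_lt_one ((x : ℝ) * α)
    have h1 := h ⌊(N : ℝ) * Int.fract ((x : ℝ) * α) + c⌋ (by
      rw [Finset.mem_Icc]
      constructor
      · apply Int.floor_le_floor
        have : 0 ≤ (N : ℝ) * Int.fract ((x : ℝ) * α) := by positivity
        linarith
      · have h2 : (N : ℝ) * Int.fract ((x : ℝ) * α) ≤ N := by
          have : (0 : ℝ) ≤ N := Nat.cast_nonneg _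
          nlinarith
        have h3 : ⌊(N : ℝ) * Int.fract ((x : ℝ) * α) + c⌋ ≤ ⌊c + (N : ℤ)⌋ := by
          apply Int.floor_le_floor
          push_cast
          linarith
        rw [Int.floor_add_intCast] at h3
        omega) x hx y hy hxy
    have h2 := Int.floor_le ((N : ℝ) * Int.fract ((x : ℝ) * α) + c)
    have h3 : (N : ℝ) * Int.fract ((y : ℝ) * α) + (c - (⌊(N : ℝ) * Int.fract ((x : ℝ) * α) + c⌋ : ℤ)) < 0 := by linarith
    have h4 : (N : ℝ) * Int.fract ((x : ℝ) * α) + (c - (⌊(N : ℝ) * Int.fract ((x : ℝ) * α) + c⌋ : ℤ)) < 0 := by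
      have h5 : ((N : ℝ) * Int.fract ((x : ℝ) * α) + (c - (⌊(N : ℝ) * Int.fract ((x : ℝ) * α) + c⌋ : ℤ)) < 0) =
          ((N : ℝ) * Int.fract ((y : ℝ) * α) + (c - (⌊(N : ℝ) * Int.fract ((x : ℝ) * α) + c⌋ : ℤ)) < 0) := h1
      rw [h5]
      exact h3
    linarith
  intro x hx y hy hxy
  exact le_antisymm (key x hx y hy hxy) (key y hy x hx fun c hc => (hxy c hc).symm)

theorem evZ_fin1 (l : Fin 1 →₀ ℤ) (x : ℤ) : evZ l (fun _ => x) = l 0 * x := by
  unfold evZ
  rw [Finsupp.sum_fintype _ _ (by simp)]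
  simp

theorem evF_fin1 (α : ℝ) (l : Fin 1 →₀ ℤ) (x : ℤ) : evF (fun _ : Unit => α) () l (fun _ => x) = l 0 * Int.fract ((x : ℝ) * α) := by
  unfold evF
  rw [Finsupp.sum_fintype _ _ (by simp)]
  simp

theorem z5 : Z5 := by
  classical
  intro α Y hα hT
  obtain ⟨⟨N, hN, L, F⟩, hD⟩ := hT
  have hN' : (0 : ℝ) < N := by exact_mod_cast hN
  -- the exceptional solutions of the equations
  set B : Finset ℤ := (L.filter fun e => e.1 0 ≠ 0).image fun e => -e.2 / e.1 0 with hB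
  have hB' : ∀ x ∉ B, ∀ e ∈ L, e.1 0 ≠ 0 → ¬ (e.1 0 * x + e.2 = 0) := by
    intro x hx e he h0 h
    apply hx
    rw [hB, Finset.mem_image]
    refine ⟨e, Finset.mem_filter.2 ⟨he, h0⟩, ?_⟩
    have : -e.2 = e.1 0 * x := by linarith
    rw [this]
    exact Int.mul_ediv_cancel_left _ h0
  -- each residue class
  have hArc : ∀ r : ℤ, Arc α {y | r + N * y ∈ Y} := by
    intro r
    have hfl := PW.floor hα N (r * α)
    -- floors and fractional parts
    have e1 : ∀ y : ℤ, ⌊((r + N * y : ℤ) : ℝ) * α⌋ = ⌊(N : ℝ) * Int.fract ((y : ℝ) * α) + r * α⌋ + N * ⌊(y : ℝ) * α⌋ := by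
      intro y
      have h := Int.fract_add_floor ((y : ℝ) * α)
      have : ((r + N * y : ℤ) : ℝ) * α = (N : ℝ) * Int.fract ((y : ℝ) * α) + r * α + ((N * ⌊(y : ℝ) * α⌋ : ℤ) : ℝ) := by
        push_cast
        linear_combination -(N : ℝ) * h
      rw [this, Int.floor_add_intCast]
    have e2 : ∀ y : ℤ, Int.fract (((r + N * y : ℤ) : ℝ) * α) = (N : ℝ) * Int.fract ((y : ℝ) * α) + r * α - ⌊(N : ℝ) * Int.fract ((y : ℝ) * α) + r * α⌋ := by
      intro y
      have h := Int.fract_add_floor ((y : ℝ) * α)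
      rw [← Int.self_sub_floor, e1 y]
      push_cast
      linear_combination -(N : ℝ) * h
    have hmem : ∀ y : ℤ, ⌊(N : ℝ) * Int.fract ((y : ℝ) * α) + r * α⌋ ∈ Finset.Icc ⌊(r : ℝ) * α⌋ (⌊(r : ℝ) * α⌋ + N) := by
      intro y
      have x0 := Int.fract_nonneg ((y : ℝ) * α)
      have x1 := Int.fract_lt_one ((y : ℝ) * α)
      rw [Finset.mem_Icc]
      constructor
      · apply Int.floor_le_floor
        have : 0 ≤ (N : ℝ) * Int.fract ((y : ℝ) * α) := by positivity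
        linarith
      · have h2 : (N : ℝ) * Int.fract ((y : ℝ) * α) ≤ N := by nlinarith
        have h3 : ⌊(N : ℝ) * Int.fract ((y : ℝ) * α) + r * α⌋ ≤ ⌊r * α + (N : ℤ)⌋ := by
          apply Int.floor_le_floor
          push_cast
          linarith
        rw [Int.floor_add_intCast] at h3
        exact h3
    have hsig : ∀ f ∈ F, PW α (fun y : ℤ => (0 < (f.1 0 : ℝ) * Int.fract (((r + N * y : ℤ) : ℝ) * α) + f.2.1,
        (f.1 0 : ℝ) * Int.fract (((r + N * y : ℤ) : ℝ) * α) + f.2.1 < 0)) := by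
      intro f _
      have h := PW.bind (α := α) (Finset.Icc ⌊(r : ℝ) * α⌋ (⌊(r : ℝ) * α⌋ + N)) hfl hmem
        (g := fun (k : ℤ) (y : ℤ) => (0 < ((f.1 0 : ℝ) * N) * Int.fract ((y : ℝ) * α) + (f.1 0 * (r * α - k) + f.2.1),
          ((f.1 0 : ℝ) * N) * Int.fract ((y : ℝ) * α) + (f.1 0 * (r * α - k) + f.2.1) < 0))
        fun k _ => (PW.aff hα _ _).prod (PW.aff' hα _ _)
      obtain ⟨C, Z, h⟩ := h
      refine ⟨C, Z, fun x hx y hy hxy => ?_⟩
      have h1 := h x hx y hy hxy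
      have e3 : ∀ y : ℤ, (f.1 0 : ℝ) * Int.fract (((r + N * y : ℤ) : ℝ) * α) + f.2.1 =
          ((f.1 0 : ℝ) * N) * Int.fract ((y : ℝ) * α) + (f.1 0 * (r * α - ⌊(N : ℝ) * Int.fract ((y : ℝ) * α) + r * α⌋) + f.2.1) := by
        intro y
        rw [e2]
        ring
      change (0 < (f.1 0 : ℝ) * Int.fract (((r + N * x : ℤ) : ℝ) * α) + f.2.1, (f.1 0 : ℝ) * Int.fract (((r + N * x : ℤ) : ℝ) * α) + f.2.1 < 0) =
        (0 < (f.1 0 : ℝ) * Int.fract (((r + N * y : ℤ) : ℝ) * α) + f.2.1, (f.1 0 : ℝ) * Int.fract (((r + N * y : ℤ) : ℝ) * α) + f.2.1 < 0)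
      rw [e3 x, e3 y]
      exact h1
    obtain ⟨C1, Z1, h1⟩ := PW.family F hsig
    obtain ⟨C2, Z2, h2⟩ := hfl
    refine ⟨C1 ∪ C2, Z1 ∪ Z2 ∪ B.image (fun x => (x - r) / N), fun x hx y hy hxy => ?_⟩
    simp only [Finset.mem_union, not_or] at hx hy
    have hbad : ∀ y : ℤ, y ∉ B.image (fun x => (x - r) / N) → r + N * y ∉ B := by
      intro y hy hb
      apply hy
      rw [Finset.mem_image]
      refine ⟨_, hb, ?_⟩
      rw [show r + (N : ℤ) * y - r = N * y by ring]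
      exact Int.mul_ediv_cancel_left _ (by exact_mod_cast hN.ne')
    have hS : Same (fun _ : Unit => α) ⟨N, hN, L, F⟩ (fun _ : Fin 1 => r + N * x) (fun _ : Fin 1 => r + N * y) := by
      refine ⟨fun b => ⟨?_, fun i => ?_⟩, ?_, ?_⟩
      · change r + (N : ℤ) * x ≡ r + N * y [ZMOD N]
        rw [Int.modEq_iff_dvd]
        exact ⟨y - x, by ring⟩
      · change ⌊((r + N * x : ℤ) : ℝ) * α⌋ ≡ ⌊((r + N * y : ℤ) : ℝ) * α⌋ [ZMOD N]
        have g : ⌊(N : ℝ) * Int.fract ((x : ℝ) * α) + r * α⌋ = ⌊(N : ℝ) * Int.fract ((y : ℝ) * α) + r * α⌋ :=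
          h2 x hx.1.2 y hy.1.2 fun c hc => hxy c (Finset.mem_union_right _ hc)
        rw [e1, e1, g, Int.modEq_iff_dvd]
        exact ⟨⌊(y : ℝ) * α⌋ - ⌊(x : ℝ) * α⌋, by ring⟩
      · intro e he
        rw [evZ_fin1, evZ_fin1]
        by_cases h0 : e.1 0 = 0
        · rw [h0, zero_mul, zero_mul]
        · have g1 := hB' _ (hbad x hx.2) e he h0
          have g2 := hB' _ (hbad y hy.2) e he h0
          tauto
      · intro f hf
        have g := h1 f hf x hx.1.1 y hy.1.1 fun c hc => hxy c (Finset.mem_union_left _ hc)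
        have g1 := congrArg Prod.fst g
        have g2 := congrArg Prod.snd g
        have e4 : ∀ z : ℤ, evF (fun _ : Unit => α) f.2.2 f.1 (fun _ : Fin 1 => z) = f.1 0 * Int.fract ((z : ℝ) * α) :=
          fun z => evF_fin1 α f.1 z
        rw [e4, e4]
        exact ⟨iff_of_eq g1, iff_of_eq g2⟩
    exact iff_of_eq (hD _ _ hS)
  by_cases hall : ∀ r : ℤ, {y | r + N * y ∈ Y}.Finite ∨ {y | r + N * y ∈ Y}ᶜ.Finite
  · left
    -- the exceptions
    have hE : ∀ r : ℤ, ∃ E : Finset ℤ, ∀ x ∉ E, ∀ y ∉ E, (r + N * x ∈ Y ↔ r + N * y ∈ Y) := by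
      intro r
      rcases hall r with h | h
      · refine ⟨h.toFinset, fun x hx y hy => ?_⟩
        rw [Set.Finite.mem_toFinset] at hx hy
        have hx' : ¬ (r + N * x ∈ Y) := hx
        have hy' : ¬ (r + N * y ∈ Y) := hy
        tauto
      · refine ⟨h.toFinset, fun x hx y hy => ?_⟩
        rw [Set.Finite.mem_toFinset] at hx hy
        have hx' : ¬ ¬ (r + N * x ∈ Y) := hx
        have hy' : ¬ ¬ (r + N * y ∈ Y) := hy
        tauto
    choose E hE using hE
    refine ⟨N, (Finset.range N).biUnion (fun r => (E r).image fun y => (r : ℤ) + N * y), hN, fun x hx y hy hxy => ?_⟩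
    have hN0 : (N : ℤ) ≠ 0 := by exact_mod_cast hN.ne'
    have h1 := Int.emod_nonneg x hN0
    have h2 := Int.emod_lt_of_pos x (show 0 < (N : ℤ) by exact_mod_cast hN)
    have hxd := Int.mul_ediv_add_emod x N
    have hyd := Int.mul_ediv_add_emod y N
    have hxy' : x % N = y % N := hxy
    obtain ⟨r, hr⟩ : ∃ r : ℕ, (r : ℤ) = x % N := ⟨(x % N).toNat, Int.toNat_of_nonneg h1⟩
    have hrN : r ∈ Finset.range N := by
      rw [Finset.mem_range]
      omega
    have ex : x = (r : ℤ) + N * (x / N) := by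
      rw [hr]
      linarith
    have ey : y = (r : ℤ) + N * (y / N) := by
      rw [hr, hxy']
      linarith
    have hx1 : x / N ∉ E r := by
      intro h
      apply hx
      rw [Finset.mem_biUnion]
      exact ⟨r, hrN, Finset.mem_image.2 ⟨_, h, ex.symm⟩⟩
    have hy1 : y / N ∉ E r := by
      intro h
      apply hy
      rw [Finset.mem_biUnion]
      exact ⟨r, hrN, Finset.mem_image.2 ⟨_, h, ey.symm⟩⟩
    have := hE r _ hx1 _ hy1
    rw [← ex, ← ey] at this
    exact this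
  · right
    push Not at hall
    obtain ⟨r, h1, h2⟩ := hall
    exact ⟨N, r, hN, hArc r, h1, h2⟩

end Pool.Agent.Q222.HZ
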