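import Pool.Agent.Q222.HZ.Circ

set_option autoImplicit false

/-!
Project H200Z, job Z6: from one variable to several variables.
-/

namespace Pool.Agent.Q222.HZ

open Pool.Agent.H200Z Q200.CircData

theorem exists_delta {κ : Type} (S : Finset κ) (g : κ → ℝ) (hg : ∀ k ∈ S, 0 < g k) : ∃ δ : ℝ, 0 < δ ∧ ∀ k ∈ S, δ < g k := by
  classical
  induction S using Finset.induction_on with
  | empty => exact ⟨1, one_pos, by simp⟩
  | insert a S _ ih =>
    obtain ⟨δ, h1, h2⟩ := ih fun k hk => hg k (Finset.mem_insert_of_mem hk)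
    have h3 := hg a (Finset.mem_insert_self _ _)
    refine ⟨min δ (g a / 2), lt_min h1 (by linarith), fun k hk => ?_⟩
    rcases Finset.mem_insert.1 hk with rfl | hk
    · exact (min_le_right _ _).trans_lt (by linarith)
    · exact (min_le_left _ _).trans_lt (h2 k hk)

theorem evZ_update {n : ℕ} (l : Fin n →₀ ℤ) (u : Fin n → ℤ) (b : Fin n) (x : ℤ) :
    evZ l (Function.update u b x) = evZ l u + l b * (x - u b) := by
  unfold evZ
  rw [Finsupp.sum_fintype _ _ (by simp), Finsupp.sum_fintype _ _ (by simp),
    ← Finset.add_sum_erase _ _ (Finset.mem_univ b), ← Finset.add_sum_erase (s := Finset.univ) (f := fun i => l i * u i) (a := b) (Finset.mem_univ b)]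
  have h : ∑ i ∈ Finset.univ.erase b, l i * Function.update u b x i = ∑ i ∈ Finset.univ.erase b, l i * u i := by
    apply Finset.sum_congr rfl
    intro i hi
    rw [Function.update_of_ne (Finset.ne_of_mem_erase hi)]
  rw [h, Function.update_self]
  ring

theorem evF_update {n : ℕ} (α : ℝ) (l : Fin n →₀ ℤ) (u : Fin n → ℤ) (b : Fin n) (x : ℤ) :
    evF (fun _ : Unit => α) () l (Function.update u b x) =
      evF (fun _ : Unit => α) () l u + l b * (Int.fract ((x : ℝ) * α) - Int.fract ((u b : ℝ) * α)) := by
  unfold evF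
  rw [Finsupp.sum_fintype _ _ (by simp), Finsupp.sum_fintype _ _ (by simp),
    ← Finset.add_sum_erase _ _ (Finset.mem_univ b),
    ← Finset.add_sum_erase (s := Finset.univ) (f := fun i => (l i : ℝ) * Int.fract ((u i : ℝ) * α)) (a := b) (Finset.mem_univ b)]
  have h : ∑ i ∈ Finset.univ.erase b, (l i : ℝ) * Int.fract ((Function.update u b x i : ℝ) * α) =
      ∑ i ∈ Finset.univ.erase b, (l i : ℝ) * Int.fract ((u i : ℝ) * α) := by
    apply Finset.sum_congr rfl
    intro i hi
    rw [Function.update_of_ne (Finset.ne_of_mem_erase hi)]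
  rw [h, Function.update_self]
  ring

theorem z6 : Z6 := by
  classical
  intro D E α hD hE hα hT hEP n
  induction n with
  | zero =>
    intro s _
    rcases Set.eq_empty_or_nonempty s with h | ⟨x, hx⟩
    · rw [h]
      exact ds_empty hE 0
    · have : s = Set.univ := by
        ext y
        rw [Subsingleton.elim y x]
        simp [hx]
      rw [this]
      exact ds_univ hE 0
  | succ n ih =>
    intro s hs
    obtain ⟨⟨N, hN, L, F⟩, hDat⟩ := hT (n + 1) s hs
    set θ : Unit → ℝ := fun _ => α with hθ
    set H : Finset ((Fin (n + 1) →₀ ℤ) × ℤ) := (L.filter fun e => e.1 ≠ 0) ∪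
      ((F.filter fun f => f.1 ≠ 0).image fun f => (f.1, -kk θ () f.2.1)) ∪
      (Finset.univ.image fun b => (Finsupp.single b 1, 0)) with hH
    have hH0 : ∀ h ∈ H, h.1 ≠ 0 := by
      intro h hh
      rw [hH, Finset.mem_union, Finset.mem_union] at hh
      rcases hh with (hh | hh) | hh
      · exact (Finset.mem_filter.1 hh).2
      · obtain ⟨f, hf, rfl⟩ := Finset.mem_image.1 hh
        exact (Finset.mem_filter.1 hf).2
      · obtain ⟨b, _, rfl⟩ := Finset.mem_image.1 hh
        simp
    obtain ⟨gen, hgen⟩ : ∃ gen : (Fin (n + 1) → ℤ) → Prop, ∀ v, gen v ↔ ∀ h ∈ H, evZ h.1 v + h.2 ≠ 0 := ⟨_, fun _ => Iff.rfl⟩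
    have gL : ∀ v, gen v → ∀ e ∈ L, e.1 ≠ 0 → evZ e.1 v + e.2 ≠ 0 := by
      intro v hv e he h0
      apply (hgen v).1 hv e
      rw [hH, Finset.mem_union, Finset.mem_union]
      exact Or.inl (Or.inl (Finset.mem_filter.2 ⟨he, h0⟩))
    have gF : ∀ v, gen v → ∀ f ∈ F, f.1 ≠ 0 → evF θ () f.1 v + f.2.1 ≠ 0 := by
      intro v hv f hf h0 heq
      have h1 := (hgen v).1 hv (f.1, -kk θ () f.2.1) (by
        rw [hH, Finset.mem_union, Finset.mem_union]
        exact Or.inl (Or.inr (Finset.mem_image.2 ⟨f, Finset.mem_filter.2 ⟨hf, h0⟩, rfl⟩)))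
      apply h1
      have h2 := ev_identity θ () f.1 v
      have h3 := kk_spec (θ := θ) (i := ()) hα (r := f.2.1) (k := evZ f.1 v) (m := evL θ () f.1 v) (by rw [h2]; linarith)
      change evZ f.1 v + -kk θ () f.2.1 = 0
      rw [← h3]
      ring
    have g0 : ∀ v, gen v → ∀ b, v b ≠ 0 := by
      intro v hv b heq
      have h1 := (hgen v).1 hv (Finsupp.single b 1, 0) (by
        rw [hH, Finset.mem_union]
        exact Or.inr (Finset.mem_image.2 ⟨b, Finset.mem_univ _, rfl⟩))
      apply h1
      simp [evZ, heq]
    -- the values of a coordinate which destroy genericity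
    have hbad : ∀ u, gen u → ∀ b : Fin (n + 1), ∃ B : Finset ℤ, ∀ x ∉ B, gen (Function.update u b x) := by
      intro u hu b
      refine ⟨H.image fun h => u b - (evZ h.1 u + h.2) / h.1 b, fun x hx => ?_⟩
      rw [hgen]
      intro h hh heq
      rw [evZ_update] at heq
      by_cases h0 : h.1 b = 0
      · rw [h0, zero_mul, add_zero] at heq
        exact (hgen u).1 hu h hh heq
      · apply hx
        rw [Finset.mem_image]
        refine ⟨h, hh, ?_⟩
        have : evZ h.1 u + h.2 = h.1 b * (u b - x) := by linarith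
        rw [this, Int.mul_ediv_cancel_left _ h0]
        ring
    -- nearby values
    have hnear : ∀ u, gen u → ∀ (b : Fin (n + 1)) (M : ℕ), 0 < M → N ∣ M → ∀ r : ℤ, r ≡ u b [ZMOD N] → ∀ Z : Finset ℤ,
        ∃ x : ℤ, x ∉ Z ∧ x ≡ r [ZMOD M] ∧ (u ∈ s ↔ Function.update u b x ∈ s) := by
      intro u hu b M hM hNM r hr Z
      obtain ⟨B, hB⟩ := hbad u hu b
      obtain ⟨δ, hδ, hδF⟩ := exists_delta (F.filter fun f => evF θ () f.1 u + f.2.1 ≠ 0)
        (fun f => |evF θ () f.1 u + f.2.1| / (|(f.1 b : ℝ)| + 1)) (by
          intro f hf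
          have h1 := (Finset.mem_filter.1 hf).2
          have h2 : 0 < |evF θ () f.1 u + f.2.1| := abs_pos.2 h1
          positivity)
      have fr0 := fr_pos hα (g0 u hu b)
      have fr1 := Int.fract_lt_one ((u b : ℝ) * α)
      have hfl := Int.fract_add_floor ((u b : ℝ) * α)
      set φ := Int.fract ((u b : ℝ) * α) with hφ
      obtain ⟨δ', h1, h2, h3, h4⟩ : ∃ δ' : ℝ, 0 < δ' ∧ δ' ≤ δ ∧ δ' ≤ φ ∧ δ' ≤ 1 - φ :=
        ⟨min δ (min φ (1 - φ)), lt_min hδ (lt_min fr0 (by linarith)), min_le_left _ _,
          (min_le_right _ _).trans (min_le_left _ _), (min_le_right _ _).trans (min_le_right _ _)⟩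
      obtain ⟨k, m, hk, hk1, hk2⟩ := dens hα (a := (u b : ℝ) * α - δ') (b := (u b : ℝ) * α + δ') (by linarith) r hM hN (Z ∪ B)
      set x : ℤ := r + M * k with hx
      rw [Finset.mem_union, not_or] at hk
      refine ⟨x, hk.1, ?_, ?_⟩
      · rw [Int.modEq_comm, Int.modEq_iff_dvd]
        exact ⟨k, by rw [hx]; ring⟩
      have hxg := hB x hk.2
      set η : ℝ := (x : ℝ) * α - N * m - u b * α with hη
      have hη1 : -δ' < η := by linarith
      have hη2 : η < δ' := by linarith
      have hxN : x ≡ u b [ZMOD N] := by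
        refine Int.ModEq.trans ?_ hr
        rw [Int.modEq_comm, Int.modEq_iff_dvd, hx]
        obtain ⟨c, hc⟩ := hNM
        exact ⟨c * k, by rw [hc]; push_cast; ring⟩
      have hxe : (x : ℝ) * α = (φ + η) + ((⌊(u b : ℝ) * α⌋ + N * m : ℤ) : ℝ) := by
        push_cast
        rw [hη]
        linarith
      have hxf : Int.fract ((x : ℝ) * α) = φ + η := fr_of _ hxe (by linarith) (by linarith)
      have hxfl : ⌊(x : ℝ) * α⌋ = ⌊(u b : ℝ) * α⌋ + N * m := by
        rw [hxe, Int.floor_add_intCast]
        have : ⌊φ + η⌋ = 0 := Int.floor_eq_zero_iff.2 ⟨by linarith, by linarith⟩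
        rw [this, zero_add]
      have hS : Same θ ⟨N, hN, L, F⟩ u (Function.update u b x) := by
        refine ⟨fun b' => ?_, ?_, ?_⟩
        · by_cases hb : b' = b
          · subst hb
            rw [Function.update_self]
            refine ⟨hxN.symm, fun _ => ?_⟩
            change ⌊(u b' : ℝ) * α⌋ ≡ ⌊(x : ℝ) * α⌋ [ZMOD N]
            rw [hxfl, Int.modEq_iff_dvd]
            exact ⟨m, by ring⟩
          · rw [Function.update_of_ne hb]
            exact ⟨Int.ModEq.refl _, fun _ => Int.ModEq.refl _⟩
        · intro e he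
          by_cases h0 : e.1 = 0
          · rw [h0]
            simp [evZ]
          · have e1 := gL u hu e he h0
            have e2 := gL _ hxg e he h0
            tauto
        · rintro ⟨l, c, i⟩ hf
          change (0 < evF θ () l u + c ↔ 0 < evF θ () l (Function.update u b x) + c) ∧
            (evF θ () l u + c < 0 ↔ evF θ () l (Function.update u b x) + c < 0)
          by_cases h0 : l = 0
          · rw [h0]
            simp [evF]
          · have e1 : evF θ () l u + c ≠ 0 := gF u hu _ hf h0
            have e2 := hδF (l, c, i) (Finset.mem_filter.2 ⟨hf, e1⟩)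
            change δ < |evF θ () l u + c| / (|(l b : ℝ)| + 1) at e2
            rw [lt_div_iff₀ (by positivity)] at e2
            have e3 : evF θ () l (Function.update u b x) = evF θ () l u + l b * η := by
              rw [evF_update, hxf, ← hφ]
              ring
            have e4 : |(l b : ℝ) * η| < |evF θ () l u + c| := by
              rw [abs_mul]
              have e5 : |η| ≤ δ := by
                rw [abs_le]
                constructor <;> linarith
              have e6 : 0 ≤ |(l b : ℝ)| := abs_nonneg _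
              nlinarith
            rw [e3]
            rw [abs_lt] at e4
            rcases lt_or_gt_of_ne e1 with hlt | hgt
            · rw [abs_of_neg hlt] at e4
              constructor <;> constructor <;> intro _ <;> linarith
            · rw [abs_of_pos hgt] at e4
              constructor <;> constructor <;> intro _ <;> linarith
      exact iff_of_eq (hDat _ _ hS)
    -- replacement of one coordinate
    have hscr : ∀ u, gen u → ∀ (b : Fin (n + 1)) (t : ℤ), t ≡ u b [ZMOD N] → gen (Function.update u b t) →
        (u ∈ s ↔ Function.update u b t ∈ s) := by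
      intro u hu b t htu hut
      have hY : D1 D {x | Function.update u b x ∈ s} := by
        refine D1_of hD (DG.subst hD hs (fun i (v : Fin 1 → ℤ) => if i = b then v 0 else u i) fun i => ?_) fun v => ?_
        · by_cases hi : i = b
          · simp only [hi, if_true]
            exact DF.var hD 0
          · simp only [hi, if_false]
            exact DF.const hD _
        · have e : (fun i => if i = b then v 0 else u i) = Function.update u b (v 0) := by
            funext i
            by_cases hi : i = b
            · subst hi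
              simp
            · simp [hi]
          rw [e]
          rfl
      obtain ⟨N1, Z1, hN1, hY1⟩ := hEP _ hY
      obtain ⟨x, hx1, hx2, hx3⟩ := hnear u hu b (N * N1) (Nat.mul_pos hN hN1) (Dvd.intro _ rfl) (u b) (Int.ModEq.refl _) Z1
      obtain ⟨y, hy1, hy2, hy3⟩ := hnear _ hut b (N * N1) (Nat.mul_pos hN hN1) (Dvd.intro _ rfl) (u b)
        (by rw [Function.update_self]; exact htu.symm) Z1
      rw [Function.update_idem] at hy3
      have h1 : x ≡ y [ZMOD N1] := by
        have h2 : x ≡ y [ZMOD (N * N1 : ℕ)] := hx2.trans hy2.symm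
        push_cast at h2
        exact Int.ModEq.of_mul_left N h2
      have h2 : (Function.update u b x ∈ s ↔ Function.update u b y ∈ s) := hY1 x hx1 y hy1 h1
      rw [hx3, hy3, h2]
    -- the claim
    have hclaim : ∀ k : ℕ, ∀ v w, gen v → gen w → (∀ b, v b ≡ w b [ZMOD N]) → (∀ b : Fin (n + 1), k ≤ b.val → v b = w b) → (v ∈ s ↔ w ∈ s) := by
      intro k
      induction k with
      | zero =>
        intro v w _ _ _ h
        have : v = w := funext fun b => h b (Nat.zero_le _)
        rw [this]
      | succ k ihk =>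
        intro v w hv hw hvw h
        by_cases hk : k < n + 1
        · set b : Fin (n + 1) := ⟨k, hk⟩ with hb
          obtain ⟨B1, hB1⟩ := hbad v hv b
          obtain ⟨B2, hB2⟩ := hbad w hw b
          obtain ⟨j, _, hj, -, -⟩ := dens hα (a := 0) (b := 1) one_pos (v b) hN one_pos (B1 ∪ B2)
          rw [Finset.mem_union, not_or] at hj
          have hj1 : v b + N * j ≡ v b [ZMOD N] := by
            rw [Int.modEq_comm, Int.modEq_iff_dvd]
            exact ⟨j, by ring⟩
          have e1 := hscr v hv b _ hj1 (hB1 _ hj.1)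
          have e2 := hscr w hw b _ (hj1.trans (hvw b)) (hB2 _ hj.2)
          rw [e1, e2]
          apply ihk _ _ (hB1 _ hj.1) (hB2 _ hj.2)
          · intro b'
            by_cases hb' : b' = b
            · subst hb'
              rw [Function.update_self, Function.update_self]
            · rw [Function.update_of_ne hb', Function.update_of_ne hb']
              exact hvw b'
          · intro b' hkb
            by_cases hb' : b' = b
            · subst hb'
              rw [Function.update_self, Function.update_self]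
            · rw [Function.update_of_ne hb', Function.update_of_ne hb']
              apply h
              have : b'.val ≠ k := fun h' => hb' (Fin.ext h')
              omega
        · apply ihk v w hv hw hvw
          intro b hkb
          have := b.isLt
          omega
    -- the parts on the hyperplanes
    have hpart : ∀ h ∈ H, DG E (fun v : Fin (n + 1) → ℤ => evZ h.1 v + h.2 = 0 ∧ v ∈ s) := by
      intro h hh
      obtain ⟨b, hb⟩ := Finsupp.ne_iff.1 (hH0 h hh)
      rw [Finsupp.coe_zero, Pi.zero_apply] at hb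
      set e : Fin (n + 1) → Option (Fin n) := fun i => Fin.insertNth (α := fun _ => Option (Fin n)) b none some i with he
      have heq : ∀ (u : Fin n → ℤ) (t : ℤ), ext u t ∘ e = Fin.insertNth (α := fun _ => ℤ) b t u := by
        intro u t
        funext i
        rcases Fin.eq_self_or_eq_succAbove b i with rfl | ⟨j, rfl⟩
        · simp [he, ext]
        · simp [he, ext]
      have h1 : DG D (fun x : Option (Fin n) → ℤ => x ∘ e ∈ s ∧ evZ h.1 (x ∘ e) + h.2 = 0) :=
        DG.and hD (DG_set hs e) (DG.eqt hD (DF.add hD ((DF.evZ hD h.1).reindex e) (DF.const hD h.2)) (DF.const hD 0))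
      have h2 := ih _ ((DG_iff hD).1 (h1.ex hD))
      have h3 := DG.and hE (DG.eqt hE (DF.add hE (DF.evZ hE h.1) (DF.const hE h.2)) (DF.const hE 0)) (DG_set h2 b.succAbove)
      refine h3.congr fun v => and_congr_right fun h4 => ?_
      change (∃ t, ext (v ∘ b.succAbove) t ∘ e ∈ s ∧ evZ h.1 (ext (v ∘ b.succAbove) t ∘ e) + h.2 = 0) ↔ _
      have h5 : ∀ t, ext (v ∘ b.succAbove) t ∘ e = Function.update v b t := by
        intro t
        rw [heq]
        funext i
        rcases Fin.eq_self_or_eq_succAbove b i with rfl | ⟨j, rfl⟩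
        · simp
        · simp [Fin.succAbove_ne]
      simp only [h5]
      constructor
      · rintro ⟨t, g1, g2⟩
        rw [evZ_update] at g2
        have g3 : h.1 b * (t - v b) = 0 := by linarith
        have g4 : t = v b := by
          rcases mul_eq_zero.1 g3 with g | g
          · exact absurd g hb
          · linarith
        rw [g4, Function.update_eq_self] at g1
        exact g1
      · intro g
        refine ⟨v b, ?_, ?_⟩
        · rw [Function.update_eq_self]
          exact g
        · rw [Function.update_eq_self]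
          exact h4
    -- the generic part
    have : NeZero N := ⟨hN.ne'⟩
    set R : Finset (Fin (n + 1) → Fin N) := Finset.univ.filter fun r => ∃ v, gen v ∧ v ∈ s ∧ ∀ b, v b ≡ ((r b : ℕ) : ℤ) [ZMOD N] with hR
    have hgp : DG E (fun v : Fin (n + 1) → ℤ => (∀ h ∈ H, ¬ (evZ h.1 v + h.2 = 0)) ∧
        ∃ r ∈ R, ∀ b ∈ (Finset.univ : Finset (Fin (n + 1))), v b ≡ ((r b : ℕ) : ℤ) [ZMOD N]) :=
      DG.and hE (DG.finsetAnd hE H (fun h v => ¬ (evZ h.1 v + h.2 = 0)) fun h _ =>
        DG.not hE (DG.eqt hE (DF.add hE (DF.evZ hE h.1) (DF.const hE h.2)) (DF.const hE 0)))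
        (DG.finsetOr hE R (fun r v => ∀ b ∈ (Finset.univ : Finset (Fin (n + 1))), v b ≡ ((r b : ℕ) : ℤ) [ZMOD N]) fun r _ =>
          DG.finsetAnd hE _ (fun b v => v b ≡ ((r b : ℕ) : ℤ) [ZMOD N]) fun b _ => DG.modEq hE (DF.var hE b) _ _)
    have hall := (DG_iff hE).1 (DG.or hE (DG.finsetOr hE H (fun h v => evZ h.1 v + h.2 = 0 ∧ v ∈ s) hpart) hgp)
    convert hall using 1
    ext v
    rw [Set.mem_ofPred_eq]
    constructor
    · intro hv
      by_cases hg : ∃ h ∈ H, evZ h.1 v + h.2 = 0
      · obtain ⟨h, h1, h2⟩ := hg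
        exact Or.inl ⟨h, h1, h2, hv⟩
      · right
        push Not at hg
        refine ⟨hg, fun b => ⟨(v b % N).toNat, ?_⟩, ?_, ?_⟩
        · have h1 := Int.emod_nonneg (v b) (show (N : ℤ) ≠ 0 by exact_mod_cast hN.ne')
          have h2 := Int.emod_lt_of_pos (v b) (show 0 < (N : ℤ) by exact_mod_cast hN)
          omega
        · rw [hR, Finset.mem_filter]
          refine ⟨Finset.mem_univ _, v, (hgen v).2 hg, hv, fun b => ?_⟩
          have h1 := Int.emod_nonneg (v b) (show (N : ℤ) ≠ 0 by exact_mod_cast hN.ne')
          rw [Int.toNat_of_nonneg h1]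
          exact (Int.mod_modEq _ _).symm
        · intro b _
          have h1 := Int.emod_nonneg (v b) (show (N : ℤ) ≠ 0 by exact_mod_cast hN.ne')
          change v b ≡ (((v b % N).toNat : ℕ) : ℤ) [ZMOD N]
          rw [Int.toNat_of_nonneg h1]
          exact (Int.mod_modEq _ _).symm
    · rintro (⟨h, _, _, hv⟩ | ⟨hg, r, hr, hvr⟩)
      · exact hv
      · rw [hR, Finset.mem_filter] at hr
        obtain ⟨-, w, hw1, hw2, hw3⟩ := hr
        have hgv : gen v := (hgen v).2 hg
        refine (hclaim (n + 1) v w hgv hw1 (fun b => (hvr b (Finset.mem_univ _)).trans (hw3 b).symm) fun b hb => ?_).2 hw2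
        have := b.isLt
        omega

end Pool.Agent.Q222.HZ
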